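import Mathlib
import Pool.Agent.W609.T.Slab

set_option autoImplicit false

/-!
# Ranks away from the critical size for polygons with two cut corners
-/

namespace Pool.Agent.W609.T

open Polynomial Pool.Agent.H932R2 Pool.Agent.H932R3 Pool.Agent.H932R7
open Pool.Agent.W608 Pool.Agent.W611

/-- Elementary inequalities. -/
theorem num_p {m P2 P3 c W : ℕ} (hm : 0 < m) (hP2 : P2 = (m + 1) * (m + 1))
    (hP3 : P3 = (m + 1) * P2) (hc : c = (m + 1).choose 2) (hW : W = W0 m) :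
    3 * W ≤ P3 ∧ 4 * c ≤ P3 ∧ 2 * P2 ≤ P3 ∧ 4 * (m + 2) ^ 3 ≤ 14 * P3 ∧ 2 * c = m * (m + 1) := by
  have h1 : 2 * c = m * (m + 1) := by rw [hc]; exact two_choose' m
  have h2 := R4h.three_choose m
  have h3 : W = 2 * (m + 1).choose 3 + c := by rw [hW, hc]; rfl
  have h4 : (m + 1) * 2 ≤ P2 := by rw [hP2]; exact Nat.mul_le_mul_left _ (by omega)
  have h5 : P2 * 2 ≤ P3 := by
    rw [hP3, Nat.mul_comm P2 2]
    exact Nat.mul_le_mul_right _ (by omega)
  have h6 : 3 * (2 * W) ≤ 2 * P3 := by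
    have e1 : 3 * (2 * W) + 2 * m = 2 * (m * m * m) + 3 * (m * (m + 1)) := by
      rw [← h2, ← h1, h3]
      ring
    have e2 : 2 * P3 = 2 * (m * m * m) + 6 * (m * m) + 6 * m + 2 := by
      rw [hP3, hP2]
      ring
    have e3 : m * (m + 1) = m * m + m := by ring
    omega
  refine ⟨by omega, ?_, by omega, ?_, h1⟩
  · have e1 : 2 * (m * (m + 1)) ≤ P3 := by
      rw [hP3, hP2]
      nlinarith
    omega
  · rw [hP3, hP2]
    nlinarith [Nat.zero_le (m * m), Nat.zero_le (m * m * m), Nat.mul_le_mul hm hm,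
      Nat.mul_le_mul (Nat.mul_le_mul hm hm) hm]

/-- Three sets of columns. -/
theorem nc_three {m P3 e₁ e₂ W₁ W₂ W₃ c : ℕ} {Q : Finset (ℕ × ℕ)} (he : e₁ ≤ e₂)
    (hc : c = (m + 1).choose 2)
    (h1 : NC m (Q.filter fun p => ¬ e₁ ≤ p.1) W₁)
    (h2 : NC m (Q.filter fun p => e₁ ≤ p.1 ∧ ¬ e₂ ≤ p.1) W₂)
    (h3 : NC m (Q.filter fun p => e₂ ≤ p.1) W₃)
    (g0 : 4 * c ≤ P3) (g1 : 3 * W₁ ≤ P3) (g2 : 3 * W₂ ≤ 4 * P3) (g3 : 3 * W₃ ≤ P3)
    (c1 : 4 * P3 ≤ (Q.filter fun p => ¬ e₁ ≤ p.1).card)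
    (c2 : 2 * P3 ≤ (Q.filter fun p => e₁ ≤ p.1 ∧ ¬ e₂ ≤ p.1).card)
    (c3 : P3 ≤ (Q.filter fun p => e₂ ≤ p.1).card) : NC m Q (3 * P3) := by
  classical
  obtain ⟨Z, hZ⟩ : ∃ Z, Z = Q.filter fun p => ¬ e₂ ≤ p.1 := ⟨_, rfl⟩
  have e1 : (Z.filter fun p => e₁ ≤ p.1) = Q.filter fun p => e₁ ≤ p.1 ∧ ¬ e₂ ≤ p.1 := by
    rw [hZ, Finset.filter_filter]
    refine Finset.filter_congr fun p _ => ?_
    omega
  have e2 : (Z.filter fun p => ¬ e₁ ≤ p.1) = Q.filter fun p => ¬ e₁ ≤ p.1 := by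
    rw [hZ, Finset.filter_filter]
    refine Finset.filter_congr fun p _ => ?_
    omega
  have hZc := Finset.card_filter_add_card_filter_not (s := Z) (fun p => e₁ ≤ p.1)
  rw [e1, e2] at hZc
  have k1 : NC m Z (W₂ + W₁ + (m + 1).choose 2) := by
    refine nc_union (e := e₁) (by rw [e1]; exact h2) (by rw [e2]; exact h1) ?_ ?_
    · rw [e1]
      omega
    · rw [e2, ← hc]
      omega
  refine (nc_union (e := e₂) (W₁ := W₃) (W₂ := W₂ + W₁ + (m + 1).choose 2) h3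
    (by rw [← hZ]; exact k1) (by omega) ?_).mono ?_
  · rw [← hZ, ← hc]
    omega
  · rw [← hc]
    omega

/-- The polygon. -/
def Rg (s r c q B C : ℕ) : Finset (ℕ × ℕ) :=
  (rectF (q + 1) c).filter fun p => C ≤ p.1 + p.2 ∧ p.2 + s * p.1 < c ∧ p.2 + r * p.1 + B < c

theorem mem_Rg {s r c q B C a b : ℕ} : ((a, b) : ℕ × ℕ) ∈ Rg s r c q B C ↔
    a ≤ q ∧ C ≤ a + b ∧ b + s * a < c ∧ b + r * a + B < c := by
  unfold Rg
  rw [Finset.mem_filter, mem_rectF]
  simp only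
  constructor
  · rintro ⟨⟨h1, h2⟩, h3, h4, h5⟩
    exact ⟨by omega, h3, h4, h5⟩
  · rintro ⟨h1, h2, h3, h4⟩
    exact ⟨⟨by omega, by omega⟩, h2, h3, h4⟩

/-- The left part. -/
theorem nc_S1 {s r c q B C m : ℕ} (hs : (s = 1 ∧ r = 0) ∨ (s = 2 ∧ r = 1)) (hm : 0 < m)
    (hmC : m ≤ C) (hCB : C ≤ B) (hq : C ≤ q) (hB : B + C < c) (h2 : r = 1 → B + 2 * C + 1 ≤ c)
    (hbig : 4 * (m + 2) ^ 3 ≤ (C + 1) * (c - B - C)) :
    NC m ((Rg s r c q B C).filter fun p => ¬ C + 1 ≤ p.1) (W0 m) ∧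
      (C + 1) * (c - B - C) ≤ ((Rg s r c q B C).filter fun p => ¬ C + 1 ≤ p.1).card := by
  classical
  constructor
  · rcases hs with ⟨rfl, rfl⟩ | ⟨rfl, rfl⟩
    · refine nc_int (K := C + 1) (h := fun i => 1 * (C - i) + (c - B - C)) (linF 1 C (c - B - C)) _
        (nc_lin (Or.inl rfl) (by omega) hm hmC ?_) (fun a b => by
          rw [mem_linF]
          omega) (fun i => C - i) (fun i => i) (fun a b ha hb hab => by omega) (fun a b => ?_)
        (fun a b hab hb => by omega)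
      · have e : (C + 1) * (1 * C + 2 * (c - B - C)) = 2 * ((C + 1) * (c - B - C)) +
          (C + 1) * C := by ring
        omega
      · rw [Finset.mem_filter, mem_Rg]
        constructor
        · rintro ⟨⟨h1, h2, h3, h4⟩, h5⟩
          refine ⟨C - a, by omega, ?_, ?_, ?_⟩ <;> beta_reduce <;> simp only at h5 <;> omega
        · rintro ⟨i, h1, h2, h3, h4⟩
          beta_reduce at h2 h3 h4
          simp only
          omega
    · refine nc_int (K := C + 1) (h := fun i => c - B - C) (rectF (C + 1) (c - B - C)) _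
        (nc_rect hm (by omega) (by have := h2 rfl; omega) hbig) (fun a b => by
          rw [mem_rectF]) (fun i => i) (fun i => C - i) (fun a b ha hb hab => hab)
          (fun a b => ?_) (fun a b hab hb => le_rfl)
      rw [Finset.mem_filter, mem_Rg]
      constructor
      · rintro ⟨⟨h1, h2, h3, h4⟩, h5⟩
        refine ⟨a, ?_, rfl, ?_, ?_⟩ <;> simp only at h5 <;> omega
      · rintro ⟨i, h1, h2, h3, h4⟩
        simp only
        omega
  · rw [← card_rectF]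
    refine Finset.card_le_card_of_injOn (fun p => (p.1, C - p.1 + p.2)) ?_ ?_
    · rintro ⟨a, b⟩ hp
      rw [Finset.mem_coe, mem_rectF] at hp
      rw [Finset.mem_coe, Finset.mem_filter, mem_Rg]
      simp only
      rcases hs with ⟨rfl, rfl⟩ | ⟨rfl, rfl⟩ <;> omega
    · rintro ⟨a, b⟩ _ ⟨a', b'⟩ _ h
      simp only [Prod.mk.injEq] at h ⊢
      omega

/-- A part with two long sides on parallel lines. -/
theorem nc_S2 {s r c q B C m : ℕ} (hs : (s = 1 ∧ r = 0) ∨ (s = 2 ∧ r = 1)) (hm : 0 < m)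
    (hCB : C + m + 2 ≤ B) (hq : B ≤ q) (h1 : r = 0 → 2 * B ≤ c) (hB : s * B < c)
    (hbig : 4 * (m + 2) ^ 3 ≤ (m + 1) * (c - s * B)) :
    NC m ((Rg s r c q B C).filter fun p => C + 1 ≤ p.1 ∧ ¬ B ≤ p.1) (W0 m) ∧
      (m + 1) * (c - s * B) ≤
        ((Rg s r c q B C).filter fun p => C + 1 ≤ p.1 ∧ ¬ B ≤ p.1).card := by
  classical
  have hK : (m + 1) * (c - s * B) ≤ (B - C - 1) * (c - s * B) := Nat.mul_le_mul_right _ (by omega)
  refine ⟨?_, hK.trans ?_⟩
  · rcases hs with ⟨rfl, rfl⟩ | ⟨rfl, rfl⟩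
    · refine nc_int (K := B - C - 1) (h := fun i => c - B) (rectF (B - C - 1) (c - B)) _
        (nc_rect hm (by omega) (by have := h1 rfl; omega) (by
          rw [Nat.one_mul] at hK hbig
          omega)) (fun a b => by
          rw [mem_rectF]) (fun i => C + 1 + i) (fun i => 0) (fun a b ha hb hab => by omega)
          (fun a b => ?_) (fun a b hab hb => le_rfl)
      rw [Finset.mem_filter, mem_Rg]
      constructor
      · rintro ⟨⟨h1, h2, h3, h4⟩, h5⟩
        refine ⟨a - (C + 1), ?_, ?_, ?_, ?_⟩ <;> beta_reduce <;> simp only at h5 <;> omega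
      · rintro ⟨i, h1, h2, h3, h4⟩
        beta_reduce at h2 h3 h4
        simp only
        omega
    · refine nc_int (K := B - C - 1) (h := fun i => 1 * (B - C - 2 - i) + (c - 2 * B + 1))
        (linF 1 (B - C - 2) (c - 2 * B + 1)) _
        (nc_lin (Or.inl rfl) (by omega) hm (by omega) ?_) (fun a b => by
          rw [mem_linF]
          omega) (fun i => C + 1 + i) (fun i => 0) (fun a b ha hb hab => by omega)
        (fun a b => ?_) (fun a b hab hb => by omega)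
      · have e0 : B - C - 2 + 1 = B - C - 1 := by omega
        have e : 2 * ((B - C - 1) * (c - 2 * B)) ≤
            (B - C - 1) * (1 * (B - C - 2) + 2 * (c - 2 * B + 1)) := by
          calc 2 * ((B - C - 1) * (c - 2 * B)) = (B - C - 1) * (2 * (c - 2 * B)) := by ring
            _ ≤ _ := Nat.mul_le_mul_left _ (by omega)
        rw [e0]
        omega
      · rw [Finset.mem_filter, mem_Rg]
        constructor
        · rintro ⟨⟨h1, h2, h3, h4⟩, h5⟩
          refine ⟨a - (C + 1), ?_, ?_, ?_, ?_⟩ <;> beta_reduce <;> simp only at h5 <;> omega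
        · rintro ⟨i, h1, h2, h3, h4⟩
          beta_reduce at h2 h3 h4
          simp only
          omega
  · rw [← card_rectF]
    refine Finset.card_le_card_of_injOn (fun p => (C + 1 + p.1, p.2)) ?_ ?_
    · rintro ⟨a, b⟩ hp
      rw [Finset.mem_coe, mem_rectF] at hp
      rw [Finset.mem_coe, Finset.mem_filter, mem_Rg]
      simp only
      rcases hs with ⟨rfl, rfl⟩ | ⟨rfl, rfl⟩ <;> omega
    · rintro ⟨a, b⟩ _ ⟨a', b'⟩ _ h
      simp only [Prod.mk.injEq] at h ⊢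
      omega

/-- A thin part. -/
theorem nc_S2' {s r c q B C m P2 : ℕ} (hs : (s = 1 ∧ r = 0) ∨ (s = 2 ∧ r = 1)) (hm : 0 < m)
    (hP2 : P2 = (m + 1) * (m + 1)) (hCB : C ≤ B) (hCB' : B ≤ C + m + 1) (hq : C + m + 1 ≤ q)
    (hB : s * (C + m + 1) + m + 1 ≤ c)
    (hbig : 4 * (m + 2) ^ 3 ≤ (m + 1) * (c - s * (C + m + 1))) :
    NC m ((Rg s r c q B C).filter fun p => C + 1 ≤ p.1 ∧ ¬ C + m + 2 ≤ p.1) (W0 m + 2 * P2) ∧
      (m + 1) * (c - s * (C + m + 1)) ≤
        ((Rg s r c q B C).filter fun p => C + 1 ≤ p.1 ∧ ¬ C + m + 2 ≤ p.1).card := by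
  classical
  obtain ⟨h0, hh0⟩ : ∃ h0, h0 = c - s * (C + m + 1) := ⟨_, rfl⟩
  obtain ⟨h1, hh1⟩ : ∃ h1, h1 = c - B - r * (C + 1) := ⟨_, rfl⟩
  rw [← hh0] at hbig ⊢
  have hle : h0 ≤ h1 ∧ h1 ≤ h0 + 2 * (m + 1) := by
    rcases hs with ⟨rfl, rfl⟩ | ⟨rfl, rfl⟩ <;> omega
  have hrect : ∀ h, h0 ≤ h → NC m ((rectF (C + m + 2) h).filter fun p => C + 1 ≤ p.1) (W0 m) := by
    intro h hh
    refine nc_int (K := m + 1) (h := fun i => h) (rectF (m + 1) h) _
        (nc_rect hm le_rfl (by omega) (hbig.trans (Nat.mul_le_mul_left _ hh))) (fun a b => by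
          rw [mem_rectF]) (fun i => C + 1 + i) (fun i => 0) (fun a b ha hb hab => by omega)
          (fun a b => ?_) (fun a b hab hb => le_rfl)
    rw [Finset.mem_filter, mem_rectF]
    constructor
    · rintro ⟨⟨h1, h2⟩, h5⟩
      refine ⟨a - (C + 1), ?_, ?_, ?_, ?_⟩ <;> beta_reduce <;> simp only at h5 <;> omega
    · rintro ⟨i, h1, h2, h3, h4⟩
      beta_reduce at h2 h3 h4
      simp only
      omega
  have hcard : ∀ h, ((rectF (C + m + 2) h).filter fun p => C + 1 ≤ p.1).card = (m + 1) * h := by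
    intro h
    rw [← card_rectF]
    refine Finset.card_bij' (fun p _ => (p.1 - (C + 1), p.2)) (fun p _ => (C + 1 + p.1, p.2))
      ?_ ?_ ?_ ?_
    · rintro ⟨a, b⟩ hp
      rw [Finset.mem_filter, mem_rectF] at hp
      rw [mem_rectF]
      simp only at hp
      omega
    · rintro ⟨a, b⟩ hp
      rw [mem_rectF] at hp
      rw [Finset.mem_filter, mem_rectF]
      simp only
      omega
    · rintro ⟨a, b⟩ hp
      rw [Finset.mem_filter, mem_rectF] at hp
      simp only at hp ⊢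
      rw [Prod.mk.injEq]
      exact ⟨by omega, rfl⟩
    · rintro ⟨a, b⟩ hp
      simp only
      rw [Prod.mk.injEq]
      exact ⟨by omega, rfl⟩
  have hs1 : ((rectF (C + m + 2) h0).filter fun p => C + 1 ≤ p.1) ⊆
      (Rg s r c q B C).filter fun p => C + 1 ≤ p.1 ∧ ¬ C + m + 2 ≤ p.1 := by
    rintro ⟨a, b⟩ hp
    rw [Finset.mem_filter, mem_rectF] at hp
    rw [Finset.mem_filter, mem_Rg]
    simp only at hp ⊢
    rcases hs with ⟨rfl, rfl⟩ | ⟨rfl, rfl⟩ <;> omega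
  have hs2 : ((Rg s r c q B C).filter fun p => C + 1 ≤ p.1 ∧ ¬ C + m + 2 ≤ p.1) ⊆
      ((rectF (C + m + 2) h1).filter fun p => C + 1 ≤ p.1) := by
    rintro ⟨a, b⟩ hp
    rw [Finset.mem_filter, mem_Rg] at hp
    rw [Finset.mem_filter, mem_rectF]
    simp only at hp ⊢
    rcases hs with ⟨rfl, rfl⟩ | ⟨rfl, rfl⟩ <;> omega
  have hc1 := Finset.card_le_card hs1
  have hc2 := Finset.card_le_card hs2
  have hdiff : (m + 1) * h1 ≤ (m + 1) * h0 + 2 * P2 := by
    calc (m + 1) * h1 ≤ (m + 1) * (h0 + 2 * (m + 1)) := Nat.mul_le_mul_left _ hle.2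
      _ = (m + 1) * h0 + 2 * P2 := by rw [hP2]; ring
  rw [hcard] at hc1 hc2
  refine ⟨NC.between (hrect h0 le_rfl) (hrect h1 hle.1) hs1 hs2 ?_ ?_, hc1⟩
  · rw [hcard]
    omega
  · rw [hcard]
    omega

/-- The right part. -/
theorem nc_S3 {s r c q B C e m : ℕ} (hs : (s = 1 ∧ r = 0) ∨ (s = 2 ∧ r = 1)) (hm : 0 < m)
    (hBe : B ≤ e) (hCe : C + 1 ≤ e) (hq : e + m ≤ q) (hT : s * q < c)
    (hbig : 8 * (m + 2) ^ 3 ≤ (m + 1) * (c - s * e)) :
    NC m ((Rg s r c q B C).filter fun p => e ≤ p.1) (W0 m) ∧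
      (m + 1) * (c - s * e) ≤ 2 * ((Rg s r c q B C).filter fun p => e ≤ p.1).card := by
  classical
  obtain ⟨k, rfl⟩ : ∃ k, q = e + k := ⟨q - e, by omega⟩
  have hkey : (m + 1) * (c - s * e) ≤ (k + 1) * (s * k + 2 * (c - s * (e + k))) := by
    refine Nat.mul_le_mul (by omega) ?_
    rcases hs with ⟨rfl, rfl⟩ | ⟨rfl, rfl⟩ <;> omega
  have hmem : ∀ a b, ((a, b) : ℕ × ℕ) ∈ ((Rg s r c (e + k) B C).filter fun p => e ≤ p.1) ↔
      e ≤ a ∧ a ≤ e + k ∧ b + s * a < c := by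
    intro a b
    rw [Finset.mem_filter, mem_Rg]
    simp only
    rcases hs with ⟨rfl, rfl⟩ | ⟨rfl, rfl⟩ <;> omega
  have hlin : ∀ i l, ((i, l) : ℕ × ℕ) ∈ linF s k (c - s * (e + k)) ↔ i ≤ k ∧ l + s * (e + i) < c := by
    intro i l
    rw [mem_linF]
    rcases hs with ⟨rfl, rfl⟩ | ⟨rfl, rfl⟩ <;> omega
  have hs' : s = 1 ∨ s = 2 := by
    rcases hs with ⟨h, _⟩ | ⟨h, _⟩
    · exact Or.inl h
    · exact Or.inr h
  constructor
  · refine nc_int (K := k + 1) (h := fun i => c - s * (e + i)) (linF s k (c - s * (e + k))) _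
      (nc_lin hs' (by omega) hm (by omega) (hbig.trans hkey)) (fun a b => ?_) (fun i => e + i)
      (fun i => 0) (fun a b ha hb hab => by omega) (fun a b => ?_) (fun a b hab hb => ?_)
    · rw [hlin]
      omega
    · rw [hmem]
      constructor
      · rintro ⟨h1, h2, h3⟩
        obtain ⟨i, rfl⟩ : ∃ i, a = e + i := ⟨a - e, by omega⟩
        exact ⟨i, by omega, rfl, by omega, by omega⟩
      · rintro ⟨i, h1, rfl, h3, h4⟩
        beta_reduce at h3 h4
        exact ⟨by omega, by omega, by omega⟩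
    · have : s * (e + a) ≤ s * (e + b) := Nat.mul_le_mul_left _ (by omega)
      omega
  · refine hkey.trans ?_
    rw [← card_linF]
    refine Nat.mul_le_mul_left _ ?_
    refine Finset.card_le_card_of_injOn (fun p => (e + p.1, p.2)) ?_ ?_
    · rintro ⟨a, b⟩ hp
      rw [Finset.mem_coe, hlin] at hp
      rw [Finset.mem_coe, hmem]
      exact ⟨by omega, by omega, hp.2⟩
    · rintro ⟨a, b⟩ _ ⟨a', b'⟩ _ h
      simp only [Prod.mk.injEq] at h ⊢
      omega

/-- Ranks on the polygon, away from the critical size. -/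
theorem nc_Rg {s r c q B C m P2 P3 : ℕ} (hs : (s = 1 ∧ r = 0) ∨ (s = 2 ∧ r = 1)) (hm : 0 < m)
    (hP2 : P2 = (m + 1) * (m + 1)) (hP3 : P3 = (m + 1) * P2)
    (hmC : m ≤ C) (hCB : C ≤ B) (hq : B + 2 * m + 2 ≤ q) (hT : s * q < c)
    (hA : 28 * P2 + s * (B + m + 2) ≤ c) (hA' : 14 * P2 + B + C ≤ c)
    (h1 : r = 0 → 2 * B ≤ c) (h2 : r = 1 → B + 2 * C + 1 ≤ c) :
    NC m (Rg s r c q B C) (3 * P3) := by
  classical
  obtain ⟨cc, hcc⟩ : ∃ cc, cc = (m + 1).choose 2 := ⟨_, rfl⟩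
  obtain ⟨W, hW⟩ : ∃ W, W = W0 m := ⟨_, rfl⟩
  obtain ⟨n1, n2, n3, n4, n5⟩ := num_p hm hP2 hP3 hcc hW
  have hP20 : 4 ≤ P2 := by
    rw [hP2]
    exact Nat.mul_le_mul (show 2 ≤ m + 1 by omega) (show 2 ≤ m + 1 by omega)
  have hmP : m + 1 ≤ P2 := by
    rw [hP2]
    exact Nat.le_mul_of_pos_left _ (by omega)
  have e14 : (m + 1) * (14 * P2) = 14 * P3 := by rw [hP3]; ring
  have e28 : (m + 1) * (28 * P2) = 28 * P3 := by rw [hP3]; ring
  have a1 : 14 * P3 ≤ (C + 1) * (c - B - C) := by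
    rw [← e14]
    exact Nat.mul_le_mul (by omega) (by omega)
  obtain ⟨k1, k2⟩ := nc_S1 (q := q) hs hm hmC hCB (by omega) (by omega) h2 (n4.trans a1)
  have hmul : ∀ e, e ≤ B + m + 2 → 28 * P3 ≤ (m + 1) * (c - s * e) := by
    intro e he
    rw [← e28]
    refine Nat.mul_le_mul_left _ ?_
    have : s * e ≤ s * (B + m + 2) := Nat.mul_le_mul_left _ he
    omega
  have hle : ∀ e, e ≤ B + m + 2 → s * e + 28 * P2 ≤ c := by
    intro e he
    have : s * e ≤ s * (B + m + 2) := Nat.mul_le_mul_left _ he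
    omega
  rcases Nat.lt_or_ge (C + m + 1) B with hth | hth
  · have a2 := hmul B (by omega)
    obtain ⟨k3, k4⟩ := nc_S2 (s := s) (r := r) (c := c) (q := q) (B := B) (C := C) hs hm
      (by omega) (by omega) h1 (by have := hle B (by omega); omega) (by omega)
    obtain ⟨k5, k6⟩ := nc_S3 (s := s) (r := r) (c := c) (q := q) (B := B) (C := C) (e := B) hs hm
      le_rfl (by omega) (by omega) hT (by omega)
    refine nc_three (e₁ := C + 1) (e₂ := B) (c := cc) (by omega) hcc k1 k3 k5 n2 ?_ ?_ ?_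
      (by omega) (by omega) (by omega)
    · rw [← hW]; omega
    · rw [← hW]; omega
    · rw [← hW]; omega
  · have a2 := hmul (C + m + 1) (by omega)
    have a3 := hmul (C + m + 2) (by omega)
    obtain ⟨k3, k4⟩ := nc_S2' (s := s) (r := r) (c := c) (q := q) (B := B) (C := C) hs hm hP2
      hCB hth (by omega) (by have := hle (C + m + 1) (by omega); omega) (by omega)
    obtain ⟨k5, k6⟩ := nc_S3 (s := s) (r := r) (c := c) (q := q) (B := B) (C := C)
      (e := C + m + 2) hs hm (by omega) (by omega) (by omega) hT (by omega)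
    refine nc_three (e₁ := C + 1) (e₂ := C + m + 2) (c := cc) (by omega) hcc k1 k3 k5 n2 ?_ ?_ ?_
      (by omega) (by omega) (by omega)
    · rw [← hW]; omega
    · rw [← hW]; omega
    · rw [← hW]; omega

end Pool.Agent.W609.T
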