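import Mathlib
import Pool.Agent.W609.T.Hole
import Pool.Agent.W609.Near

set_option autoImplicit false

/-!
# Exact ranks near the critical size for sets whose first columns are linear
-/

namespace Pool.Agent.W609.T

open Polynomial Pool.Agent.H932R2 Pool.Agent.H932R3 Pool.Agent.H932R7
open Pool.Agent.W608 Pool.Agent.W611

/-- The width of a strip. -/
theorem strip_id {s c₀ δ u : ℕ} (Q : Finset (ℕ × ℕ)) (hδ : 0 < δ)
    (hQ : ∀ a b, a < δ * (u + 1) → (((a, b) : ℕ × ℕ) ∈ Q ↔ b + s * a < c₀))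
    (hc0 : s * (δ * (u + 1)) ≤ c₀) :
    ∃ T, T + s * (δ * δ) * u + s * cc δ = δ * c₀ ∧ 0 < c₀ + 1 - s * (δ * (u + 1)) ∧
      (Q.filter fun p => δ * u ≤ p.1).card = (Q.filter fun p => δ * (u + 1) ≤ p.1).card + T ∧
      s * (δ * δ) * u * (u + 1) + 2 * u * T + 2 * (Q.filter fun p => δ * u ≤ p.1).card =
        2 * Q.card ∧ δ * (c₀ - s * (δ * (u + 1))) ≤ T := by
  classical
  have e1 : δ * (u + 1) = δ * u + δ := by ring
  have hsu : s * (δ * u) ≤ s * (δ * (u + 1)) := Nat.mul_le_mul_left _ (by omega)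
  have z1 := card_zone (s := s) (c₀ := c₀) Q (δ * (u + 1)) hQ (by omega)
  have z0 := card_zone (s := s) (c₀ := c₀) Q (δ * u) (fun a b h => hQ a b (by omega)) (by omega)
  have f1 := Finset.card_filter_add_card_filter_not (s := Q) (fun p => δ * (u + 1) ≤ p.1)
  have f0 := Finset.card_filter_add_card_filter_not (s := Q) (fun p => δ * u ≤ p.1)
  have hadd := cc_add (δ * u) δ
  rw [← e1] at hadd
  have hcc := cc_two δ
  have hccu := cc_two (δ * u)
  obtain ⟨C, hC⟩ : ∃ C, C = s * cc δ := ⟨_, rfl⟩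
  obtain ⟨D, hD⟩ : ∃ D, D = s * (δ * δ) := ⟨_, rfl⟩
  have hCD : C ≤ D := by
    rw [hC, hD]
    exact Nat.mul_le_mul_left _ (by omega)
  have hδc : D * u + D ≤ δ * c₀ := by
    have h1 : δ * (s * (δ * (u + 1))) ≤ δ * c₀ := Nat.mul_le_mul_left _ hc0
    have h2 : δ * (s * (δ * (u + 1))) = D * u + D := by rw [hD]; ring
    omega
  obtain ⟨T, hT⟩ : ∃ T, δ * c₀ = T + D * u + C := ⟨δ * c₀ - (D * u + C), by omega⟩
  have hT1 : (Q.filter fun p => δ * u ≤ p.1).card =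
      (Q.filter fun p => δ * (u + 1) ≤ p.1).card + T := by
    have h1 : s * cc (δ * (u + 1)) = s * cc (δ * u) + D * u + C := by
      rw [hadd, hD, hC]
      ring
    have h2 : δ * (u + 1) * c₀ = δ * u * c₀ + δ * c₀ := by ring
    omega
  refine ⟨T, by rw [← hD, ← hC]; omega, by omega, hT1, ?_, ?_⟩
  · rw [← hD]
    have h1 : 2 * (s * cc (δ * u)) + s * (δ * u) = D * u * u := by
      have : 2 * (s * cc (δ * u)) + s * (δ * u) = s * (2 * cc (δ * u) + δ * u) := by ring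
      rw [this, hccu, hD]
      ring
    have h2 : 2 * C + s * δ = D := by
      have : 2 * C + s * δ = s * (2 * cc δ + δ) := by rw [hC]; ring
      rw [this, hcc, hD]
    have h3 : δ * u * c₀ = u * T + D * u * u + u * C := by
      have : δ * u * c₀ = u * (δ * c₀) := by ring
      rw [this, hT]
      ring
    have h4 : D * u * (u + 1) = D * u * u + D * u := by ring
    have h5 : u * (2 * C) + s * (δ * u) = D * u := by
      have : u * (2 * C) + s * (δ * u) = u * (2 * C + s * δ) := by ring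
      rw [this, h2]
      ring
    have h6 : u * (2 * C) = 2 * (u * C) := by ring
    have h7 : 2 * u * T = 2 * (u * T) := by ring
    omega
  · rw [Nat.mul_sub]
    have h2 : δ * (s * (δ * (u + 1))) = D * u + D := by rw [hD]; ring
    omega

variable {K : Type} [Field K] [CharZero K] {𝓘 : Set (Ideal K[X][X])}

/-- From a balanced shape to the set with a hole. -/
theorem start_holeT (h𝓘 : Stable 𝓘) {s δ u c₀ : ℕ} (hs : 0 < s) (hδ : 0 < δ) (hu : 0 < u)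
    {Q R : Finset (ℕ × ℕ)} (hc0 : s * (δ * (u + 1)) ≤ c₀)
    (hQ : ∀ a b, a < δ * (u + 1) → (((a, b) : ℕ × ℕ) ∈ Q ↔ b + s * a < c₀))
    (hRQ : R ⊆ Q) (hR : ∀ p ∈ R, δ * u ≤ p.1)
    (hR0 : (Q.filter fun p => δ * (u + 1) ≤ p.1) ⊆ R)
    (hX : R.card + (u + 1) ≤ (Q.filter fun p => δ * u ≤ p.1).card)
    (hFR : u * (u + 1) * (u + 2) + 2 * R.card ≤ 2 * Q.card) :
    ∃ s' u' t j, 0 < s' ∧ Good s' u' t j ∧ u ≤ u' ∧ s' % 2 = (s * δ) % 2 ∧
      sz s' u' t j + 2 * R.card = 2 * Q.card ∧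
      ∀ n, RkS 𝓘 (↑(Lfin s' u' t j) : Set (ℕ × ℕ)) n →
        RkS 𝓘 ((↑Q : Set (ℕ × ℕ)) \ (↑R : Set (ℕ × ℕ))) n := by
  classical
  obtain ⟨T, hT, -, hT1, hT2, -⟩ := strip_id Q hδ hQ hc0
  obtain ⟨n₁, hn₁⟩ : ∃ n₁, n₁ = (Q.filter fun p => δ * u ≤ p.1).card := ⟨_, rfl⟩
  have hRc := Finset.card_le_card hR0
  obtain ⟨e, he⟩ : ∃ e, R.card = (Q.filter fun p => δ * (u + 1) ≤ p.1).card + e :=
    Nat.exists_eq_add_of_le hRc
  rw [← hn₁] at hX hT1 hT2
  have hδδ : 0 < s * (δ * δ) := Nat.mul_pos hs (Nat.mul_pos hδ hδ)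
  have hS : s * (δ * δ) * u * (u + 1) + 2 * (u + 1) * T = (2 * Q.card - 2 * R.card) + 2 * e := by
    have e4 : 2 * (u + 1) * T = 2 * u * T + 2 * T := by ring
    omega
  obtain ⟨s', u', t', j', g1, g2, g3, g4, g5, g5', g6⟩ := good_blk h𝓘 hδδ hu (T := T) (e := e)
    (by omega) hS (by omega)
  refine ⟨s', u', t', j', g1, g2, g5' (Or.inr (by omega)), ?_, by omega, fun n hn => ?_⟩
  · rw [g4, Nat.mul_mod, sq_mod_two, ← Nat.mul_mod]
  · refine start_cols h𝓘 hs hδ hc0 hQ hRQ hR (fun p hp hp1 => hR0 ?_) hT he (g6 n hn)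
    exact Finset.mem_filter.2 ⟨hp, hp1⟩

/-- The ranks with the multiplicities `u` and any others at most `m` are the expected ones, except
in a window of size `W`. -/
def NCB {β : Type} [Fintype β] (u : β → ℕ) (m : ℕ) (Q : Finset (ℕ × ℕ)) (W : ℕ) : Prop :=
  ∀ (ι : Type) [Fintype ι] (w : ι → ℕ), (∀ a, w a ≤ m) →
    (Aw u + Aw w + W ≤ Q.card →
      RkS (PF ℚ (Sum.elim u w)) (↑Q : Set (ℕ × ℕ)) (Aw u + Aw w)) ∧
    (Q.card + W ≤ Aw u + Aw w → RkS (PF ℚ (Sum.elim u w)) (↑Q : Set (ℕ × ℕ)) Q.card)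

theorem Aw_sum {β ι : Type} [Fintype β] [Fintype ι] (u : β → ℕ) (w : ι → ℕ) :
    Aw (Sum.elim u w) = Aw u + Aw w := by
  unfold Aw
  rw [Fintype.sum_sum_type]
  rfl

theorem sum_split {β ι : Type} {u : β → ℕ} {w : ι → ℕ} {S : Finset ι} {T : Set (ℕ × ℕ)} {N : ℕ}
    (h : RkS (PF ℚ (Sum.elim (Sum.elim u (fun a : {a // a ∈ S} => w a))
      (fun a : {a // a ∉ S} => w a))) T N) : RkS (PF ℚ (Sum.elim u w)) T N := by
  classical
  refine rkS_reindex
    (f := Sum.elim (Sum.elim Sum.inl (fun a => Sum.inr a.1)) (fun a => Sum.inr a.1))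
    (g := Sum.elim (fun b => Sum.inl (Sum.inl b)) (fun a => if h : a ∈ S then
      Sum.inl (Sum.inr ⟨a, h⟩) else Sum.inr ⟨a, h⟩)) ?_ ?_ h
  · rintro ((b | ⟨a, ha⟩) | ⟨a, ha⟩)
    · rfl
    · simp only [Sum.elim_inl, Sum.elim_inr, dif_pos ha]
    · simp only [Sum.elim_inr, dif_neg ha]
  · rintro ((b | ⟨a, ha⟩) | ⟨a, ha⟩) <;> rfl

/-- Exact ranks near the critical size. -/
theorem crit_abs {k₀ m : ℕ} (hk₀ : 0 < k₀) (hkm : k₀ ≤ m) {β : Type} [Fintype β] (u : β → ℕ)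
    (Q : Finset (ℕ × ℕ)) {s δ c₀ W P3 P4 : ℕ} (hs : 0 < s) (hδ : 0 < δ)
    (hc0 : s * (δ * (m + 1)) ≤ c₀)
    (hQ : ∀ a b, a < δ * (m + 1) → (((a, b) : ℕ × ℕ) ∈ Q ↔ b + s * a < c₀))
    (hP3 : P3 = (m + 1) ^ 3) (hP4 : P4 = (m + 1) ^ 4)
    (hT : NCB u m (Q.filter fun p => δ * m ≤ p.1) W)
    (hT0 : NCB u m (Q.filter fun p => δ * (m + 1) ≤ p.1) W)
    (g1 : (Q.filter fun p => δ * (m + 1) ≤ p.1).card + 2 * W + 2 * P3 ≤
      (Q.filter fun p => δ * m ≤ p.1).card)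
    (g2 : Aw u + W + 2 * P4 ≤ (Q.filter fun p => δ * m ≤ p.1).card)
    (g3 : (Q.filter fun p => δ * m ≤ p.1).card + 4 * P3 ≤ Q.card)
    {ι : Type} [Fintype ι] (w : ι → ℕ) (hw : ∀ a, w a ≤ m)
    (htail : (∑ a, if w a < k₀ then w a * (w a + 1) else 0) ≤ P4)
    (hN1 : 2 * Q.card < 2 * (Aw u + Aw w) + k₀ * (k₀ + 1))
    (hN2 : 2 * (Aw u + Aw w) < 2 * Q.card + k₀ * (k₀ + 1))
    (hfr : m * (m + 1) * (m + 2) + k₀ * (k₀ + 1) ≤ Nat.card {a // w a = k₀} * (k₀ * (k₀ + 1))) :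
    RkS (PF ℚ (Sum.elim u w)) (↑Q : Set (ℕ × ℕ)) (min Q.card (Aw u + Aw w)) := by
  classical
  have hm : 0 < m := by omega
  obtain ⟨q, hq⟩ : ∃ q, q = k₀ * (k₀ + 1) := ⟨_, rfl⟩
  have hqm : q ≤ m * (m + 1) := by
    rw [hq]
    exact Nat.mul_le_mul hkm (by omega)
  have hq0 : 0 < q := by
    rw [hq]
    positivity
  obtain ⟨c₁, hc₁⟩ : ∃ c₁, c₁ = (k₀ + 1).choose 2 := ⟨_, rfl⟩
  have hc₁2 : 2 * c₁ = q := by rw [hc₁, hq]; exact two_choose' k₀
  obtain ⟨c, hc⟩ : ∃ c, c = (m + 1).choose 2 := ⟨_, rfl⟩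
  have hc2 : 2 * c = m * (m + 1) := by rw [hc]; exact two_choose' m
  have hc0' : 0 < c := by
    rw [hc]
    exact Nat.choose_pos (by omega)
  rw [← hq] at hN1 hN2 hfr
  obtain ⟨W', hW'⟩ : ∃ W, W = 2 * (m + 1).choose 3 := ⟨_, rfl⟩
  have hW3 : 3 * W' + m = m * m * m := by rw [hW']; exact R4h.three_choose m
  obtain ⟨n1, n2, n3, n4, n5, n6⟩ := num_m hm hW3
  have n7 : m * (m + 1) * (m + 2) ≤ (m + 1) ^ 3 := by
    nlinarith
  have n8 : m + 1 ≤ (m + 1) ^ 3 := Nat.le_self_pow (by omega) _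
  have n9 : 2 * (m + 1) ^ 3 ≤ (m + 1) ^ 4 := by
    have : (m + 1) ^ 4 = (m + 1) * (m + 1) ^ 3 := by ring
    rw [this]
    exact Nat.mul_le_mul_right _ (by omega)
  rw [← hP3] at n1 n2 n7 n8 n9
  rw [← hP4] at n3 n4 n5 n6 n9
  obtain ⟨T, hTd⟩ : ∃ T, T = Q.filter fun p => δ * m ≤ p.1 := ⟨_, rfl⟩
  obtain ⟨T0, hT0d⟩ : ∃ T0, T0 = Q.filter fun p => δ * (m + 1) ≤ p.1 := ⟨_, rfl⟩
  rw [← hTd] at hT g1 g2 g3
  rw [← hT0d] at hT0 g1
  -- the reserved points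
  have hcard : Nat.card {a // w a = k₀} = (Finset.univ.filter fun a => w a = k₀).card := by
    rw [Nat.card_eq_fintype_card, Fintype.card_subtype]
  rw [hcard] at hfr
  obtain ⟨e, he1, he2, he3⟩ := num_div hq0 hfr
  obtain ⟨E, hE, hEc⟩ := Finset.exists_subset_card_eq he3
  have hEw : ∀ a ∈ E, w a = k₀ := fun a ha => (Finset.mem_filter.1 (hE ha)).2
  obtain ⟨L, hL⟩ : ∃ L, L = Finset.univ.filter fun a => w a < k₀ := ⟨_, rfl⟩
  obtain ⟨B, hB⟩ : ∃ B, B = (Finset.univ.filter fun a => k₀ ≤ w a) \ E := ⟨_, rfl⟩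
  have hLmem : ∀ a, a ∈ L ↔ w a < k₀ := fun a => by rw [hL]; simp
  have hBmem : ∀ a, a ∈ B ↔ k₀ ≤ w a ∧ a ∉ E := fun a => by rw [hB]; simp
  obtain ⟨f, hf⟩ : ∃ f : ι → ℕ, f = fun a => (w a + 1).choose 2 := ⟨_, rfl⟩
  have hfa : ∀ a, f a = (w a + 1).choose 2 := fun a => by rw [hf]
  have hf2 : ∀ a, 2 * f a = w a * (w a + 1) := fun a => by rw [hfa]; exact two_choose' _
  -- sums
  have hLsum : 2 * ∑ a ∈ L, f a ≤ P4 := by
    refine le_trans (le_of_eq ?_) htail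
    rw [hL, Finset.mul_sum, Finset.sum_filter]
    refine Finset.sum_congr rfl fun a _ => ?_
    split_ifs
    · exact hf2 a
    · rfl
  obtain ⟨AT, hAT⟩ : ∃ AT, AT = ∑ a ∈ L, f a := ⟨_, rfl⟩
  rw [← hAT] at hLsum
  have hLBE : Disjoint (L ∪ B) E := by
    rw [Finset.disjoint_left]
    intro a ha ha'
    rcases Finset.mem_union.1 ha with h | h
    · rw [hLmem] at h
      have := hEw a ha'
      omega
    · exact ((hBmem a).1 h).2 ha'
  have hAll : ∑ a ∈ L ∪ B, f a + ∑ a ∈ E, f a = Aw w := by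
    rw [← Finset.sum_union hLBE]
    have h4 : L ∪ B ∪ E = Finset.univ := by
      rw [Finset.eq_univ_iff_forall]
      intro a
      rw [Finset.mem_union, Finset.mem_union, hLmem, hBmem]
      by_cases h : a ∈ E
      · tauto
      · rcases Nat.lt_or_ge (w a) k₀ with h' | h'
        · tauto
        · tauto
    rw [h4]
    unfold Aw
    exact Finset.sum_congr rfl fun a _ => hfa a
  have hEsum : 2 * ∑ a ∈ E, f a = e * q := by
    rw [Finset.sum_congr rfl (g := fun _ => c₁) (fun a ha => by rw [hfa, hEw a ha, hc₁]),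
      Finset.sum_const, smul_eq_mul, hEc, ← hc₁2]
    ring
  obtain ⟨lo, hlo⟩ : ∃ lo, lo = max (T0.card + W - Aw u) AT := ⟨_, rfl⟩
  obtain ⟨S, hS1, hS2, hS3, hS4, hS5⟩ := pick f L B c lo (Fintype.card ι + s * δ) hc0'
    (fun a ha => by
      rw [hfa, hc]
      exact Nat.choose_le_choose 2 (by
        have := hw a
        omega)) (by rw [← hAT, hlo]; exact le_max_right _ _) (by
      rcases le_total (T0.card + W - Aw u) AT with h | h
      · rw [max_eq_right h] at hlo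
        omega
      · rw [max_eq_left h] at hlo
        omega)
  obtain ⟨AS, hAS⟩ : ∃ AS, AS = ∑ a ∈ S, f a := ⟨_, rfl⟩
  rw [← hAS] at hS3 hS4
  have hASle : 2 * AS + e * q ≤ 2 * Aw w := by
    have h1 : ∑ a ∈ S, f a ≤ ∑ a ∈ L ∪ B, f a := Finset.sum_le_sum_of_subset hS2
    omega
  obtain ⟨wS, hwS⟩ : ∃ wS : {a // a ∈ S} → ℕ, wS = fun a : {a // a ∈ S} => w a := ⟨_, rfl⟩
  have hAwS : Aw wS = AS := by
    unfold Aw
    rw [hwS, hAS, Finset.sum_coe_sort S fun a => (w a + 1).choose 2]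
    exact Finset.sum_congr rfl fun a _ => (hfa a).symm
  have hwSm : ∀ a, wS a ≤ m := fun a => by rw [hwS]; exact hw a.1
  obtain ⟨A, hA⟩ : ∃ A, A = Aw u + AS := ⟨_, rfl⟩
  have hAT1 : A + 2 * c + W + (m + 1) ≤ T.card + 2 * c ∧ T0.card + W ≤ A := by
    rcases le_total (T0.card + W - Aw u) AT with h | h
    · rw [max_eq_right h] at hlo
      omega
    · rw [max_eq_left h] at hlo
      omega
  have hind : RkS (PF ℚ (Sum.elim u wS)) (↑T : Set (ℕ × ℕ)) A := by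
    have h1 := (hT _ wS hwSm).1 (by rw [hAwS]; omega)
    rw [hAwS, ← hA] at h1
    exact h1
  have hfull : RkS (PF ℚ (Sum.elim u wS)) (↑T0 : Set (ℕ × ℕ)) T0.card :=
    (hT0 _ wS hwSm).2 (by rw [hAwS]; omega)
  have hAe : Aw (Sum.elim u wS) = A := by rw [Aw_sum, hAwS, hA]
  -- the place
  obtain ⟨A₂, hA₂⟩ : ∃ A₂, A₂ = Aw (fun a : {a // a ∉ S} => w a) := ⟨_, rfl⟩
  have hsplit := Aw_split w S
  rw [← hwS, hAwS, ← hA₂] at hsplit
  obtain ⟨N₀, hN₀⟩ : ∃ N₀, Q.card = A + N₀ := ⟨Q.card - A, by omega⟩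
  have hmin : min Q.card (Aw u + Aw w) = A + min N₀ A₂ := by
    omega
  rw [hmin]
  refine sum_split (S := S) ?_
  rw [← hwS, ← hAe]
  refine comb_col (Sum.elim u wS) _ Q (δ * m) (δ * (m + 1)) (Nat.mul_le_mul_left _ (by omega))
    (by rw [hAe, ← hTd]; exact hind) (by rw [← hT0d]; exact hfull) _ ?_
  intro R hR hR0 hRc
  rw [hAe] at hRc
  rw [← hTd] at hR
  rw [← hT0d] at hR0
  obtain ⟨s', u', t, j, k1, k2, k3, k4, k5, k6⟩ := start_holeT
    (T_STAB ℚ _ (fun a : {a // a ∉ S} => w a)) (R := R) hs hδ hm hc0 hQ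
    (fun p hp => by
      have := hR hp
      rw [hTd] at this
      exact (Finset.mem_filter.1 this).1)
    (fun p hp => by
      have := hR hp
      rw [hTd] at this
      exact (Finset.mem_filter.1 this).2) (by rw [← hT0d]; exact hR0)
    (by rw [← hTd, hRc]; omega) (by rw [hRc]; omega)
  refine k6 _ ?_
  have hsz : sz s' u' t j = 2 * N₀ := by omega
  rw [hA₂]
  refine W608.t_x ℚ k₀ m hk₀ hkm {a // a ∉ S} (fun a => w a) (fun a => ?_)
    _ N₀ s' u' t j rfl k1 k2 hsz ?_ ?_ ?_ ?_ ?_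
  · refine ⟨?_, hw a.1⟩
    by_contra h6
    exact a.2 (hS1 ((hLmem _).2 (not_le.1 h6)))
  · rw [← hsz]
    unfold sz
    have h8 : s' * (m * (m + 1)) ≤ s' * (u' * (u' + 1)) :=
      Nat.mul_le_mul_left _ (Nat.mul_le_mul k3 (by omega))
    have h9 : s' * (u' * (u' + 1)) = s' * u' * (u' + 1) := by ring
    omega
  · have h6 : Fintype.card {a // a ∉ S} = Fintype.card ι - S.card := by
      rw [Fintype.card_subtype_compl, Fintype.card_coe]
    have h7 : S.card ≤ Fintype.card ι := Finset.card_le_univ S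
    rw [h6]
    omega
  · rw [← hA₂, ← hq]
    omega
  · rw [← hA₂, ← hq]
    omega
  · rw [← hq]
    refine le_trans he1 (Nat.mul_le_mul_right q ?_)
    rw [← hEc, ← Fintype.card_coe, ← Nat.card_eq_fintype_card]
    refine Nat.card_le_card_of_injective (fun a => ⟨⟨a.1, ?_⟩, hEw a.1 a.2⟩) ?_
    · intro h8
      rcases Finset.mem_union.1 (hS2 h8) with h | h
      · rw [hLmem] at h
        have := hEw a.1 a.2
        omega
      · exact ((hBmem _).1 h).2 a.2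
    · intro a b hab
      have h8 := congrArg (fun t => (t.1.1 : ι)) hab
      exact Subtype.ext h8

end Pool.Agent.W609.T
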