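import Mathlib
import Pool.Agent.W609.T.RankAbs

set_option autoImplicit false

/-!
# Cardinalities of the polygons, and the ranks with the large points
-/

namespace Pool.Agent.W609.T

open Polynomial Pool.Agent.H932R2 Pool.Agent.H932R3 Pool.Agent.H932R7
open Pool.Agent.W608 Pool.Agent.W611

theorem card_low (Q : Finset (ℕ × ℕ)) (M : ℕ) (h : ∀ i l, i + l < M → ((i, l) : ℕ × ℕ) ∈ Q) :
    (Q.filter fun p => ¬ M ≤ p.1 + p.2).card = (M + 1).choose 2 :=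
  le_antisymm (card_low_le Q M) (card_low_ge Q M h)

theorem card_hex {d M1 M2 M3 : ℕ} (h12 : M1 + M2 ≤ d) (h13 : M1 + M3 ≤ d) (h23 : M2 + M3 ≤ d) :
    (Rg 1 0 (d + 1) (d - M1) M2 M3).card +
      ((M1 + 1).choose 2 + (M2 + 1).choose 2 + (M3 + 1).choose 2) = (Tfin d).card := by
  classical
  obtain ⟨Q, hQ⟩ : ∃ Q : Finset (ℕ × ℕ), Q = Tfin d := ⟨_, rfl⟩
  have hQm : ∀ i l, ((i, l) : ℕ × ℕ) ∈ Q ↔ i + l ≤ d := fun i l => by rw [hQ, mem_Tfin]
  rw [← hQ]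
  -- the points at the origin
  have f1 := Finset.card_filter_add_card_filter_not (s := Q) (fun p => M3 ≤ p.1 + p.2)
  rw [card_low Q M3 (fun i l h => by rw [hQm]; omega)] at f1
  obtain ⟨Q1, hQ1⟩ : ∃ Q1 : Finset (ℕ × ℕ), Q1 = Q.filter fun p => M3 ≤ p.1 + p.2 := ⟨_, rfl⟩
  have hQ1m : ∀ i l, ((i, l) : ℕ × ℕ) ∈ Q1 ↔ i + l ≤ d ∧ M3 ≤ i + l := fun i l => by
    rw [hQ1, Finset.mem_filter, hQm]
  rw [← hQ1] at f1
  -- the points on the right
  have f2 := Finset.card_filter_add_card_filter_not (s := Q1) (fun p => p.1 ≤ d - M1)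
  have e2 : (Q1.filter fun p => ¬ p.1 ≤ d - M1) = Corner d (d - M1 + 1) := by
    ext ⟨i, l⟩
    rw [Finset.mem_filter, hQ1m, mem_Corner]
    simp only
    omega
  have c2 := card_Corner (d := d) (e := d - M1 + 1) (b := M1) (by omega)
  have t1 := R4h.two_choose M1
  have c2' : (Corner d (d - M1 + 1)).card = (M1 + 1).choose 2 := by omega
  rw [e2, c2'] at f2
  obtain ⟨Q2, hQ2⟩ : ∃ Q2 : Finset (ℕ × ℕ), Q2 = Q1.filter fun p => p.1 ≤ d - M1 := ⟨_, rfl⟩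
  have hQ2m : ∀ i l, ((i, l) : ℕ × ℕ) ∈ Q2 ↔ i + l ≤ d ∧ M3 ≤ i + l ∧ i ≤ d - M1 :=
    fun i l => by
      rw [hQ2, Finset.mem_filter, hQ1m]
      simp only
      omega
  rw [← hQ2] at f2
  -- the points on the top
  have f3 := Finset.card_filter_add_card_filter_not (s := Q2) (fun p => p.2 ≤ d - M2)
  have e3 : (Q2.filter fun p => ¬ p.2 ≤ d - M2).card = (M2 + 1).choose 2 := by
    have c3 := card_Corner (d := d) (e := d - M2 + 1) (b := M2) (by omega)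
    have t2 := R4h.two_choose M2
    have c3' : (Corner d (d - M2 + 1)).card = (M2 + 1).choose 2 := by omega
    rw [← c3']
    refine Finset.card_bij' (fun p _ => (p.2, p.1)) (fun p _ => (p.2, p.1)) ?_ ?_ ?_ ?_
    · rintro ⟨i, l⟩ hp
      rw [Finset.mem_filter, hQ2m] at hp
      rw [mem_Corner]
      simp only at hp ⊢
      omega
    · rintro ⟨i, l⟩ hp
      rw [mem_Corner] at hp
      rw [Finset.mem_filter, hQ2m]
      simp only at hp ⊢
      omega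
    · rintro ⟨i, l⟩ _
      rfl
    · rintro ⟨i, l⟩ _
      rfl
  rw [e3] at f3
  have e4 : (Q2.filter fun p => p.2 ≤ d - M2) = Rg 1 0 (d + 1) (d - M1) M2 M3 := by
    ext ⟨i, l⟩
    rw [Finset.mem_filter, hQ2m, mem_Rg]
    simp only
    omega
  rw [e4] at f3
  omega

theorem card_tzR {k N₂ y M : ℕ} (hk : 2 * k ≤ N₂) (h1 : M ≤ k + 1) (h2 : y ≤ k + 1)
    (h5 : M + y ≤ N₂) :
    (Rg 2 1 (N₂ + 1) k y M).card + ((y + 1).choose 2 + (M + 1).choose 2) =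
      (linF 2 k (N₂ + 1 - 2 * k)).card := by
  classical
  obtain ⟨Q, hQ⟩ : ∃ Q : Finset (ℕ × ℕ), Q = linF 2 k (N₂ + 1 - 2 * k) := ⟨_, rfl⟩
  have hQm : ∀ i l, ((i, l) : ℕ × ℕ) ∈ Q ↔ i ≤ k ∧ l + 2 * i ≤ N₂ := fun i l => by
    rw [hQ, mem_linF]
    omega
  rw [← hQ]
  have f1 := Finset.card_filter_add_card_filter_not (s := Q) (fun p => M ≤ p.1 + p.2)
  rw [card_low Q M (fun i l h => by rw [hQm]; omega)] at f1
  obtain ⟨Q1, hQ1⟩ : ∃ Q1 : Finset (ℕ × ℕ), Q1 = Q.filter fun p => M ≤ p.1 + p.2 := ⟨_, rfl⟩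
  have hQ1m : ∀ i l, ((i, l) : ℕ × ℕ) ∈ Q1 ↔ (i ≤ k ∧ l + 2 * i ≤ N₂) ∧ M ≤ i + l :=
    fun i l => by rw [hQ1, Finset.mem_filter, hQm]
  rw [← hQ1] at f1
  have f2 := Finset.card_filter_add_card_filter_not (s := Q1) (fun p => p.1 + p.2 + y ≤ N₂)
  have e2 : (Q1.filter fun p => ¬ p.1 + p.2 + y ≤ N₂).card = (y + 1).choose 2 := by
    rw [← card_low Q y (fun i l h => by rw [hQm]; omega)]
    refine Finset.card_bij' (fun p _ => (p.1, N₂ - 2 * p.1 - p.2))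
      (fun p _ => (p.1, N₂ - 2 * p.1 - p.2)) ?_ ?_ ?_ ?_
    · rintro ⟨i, l⟩ hp
      rw [Finset.mem_filter, hQ1m] at hp
      rw [Finset.mem_filter, hQm]
      simp only at hp ⊢
      omega
    · rintro ⟨i, l⟩ hp
      rw [Finset.mem_filter, hQm] at hp
      rw [Finset.mem_filter, hQ1m]
      simp only at hp ⊢
      omega
    · rintro ⟨i, l⟩ hp
      rw [Finset.mem_filter, hQ1m] at hp
      simp only at hp ⊢
      rw [Prod.mk.injEq]
      exact ⟨rfl, by omega⟩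
    · rintro ⟨i, l⟩ hp
      rw [Finset.mem_filter, hQm] at hp
      simp only at hp ⊢
      rw [Prod.mk.injEq]
      exact ⟨rfl, by omega⟩
  rw [e2] at f2
  have e4 : (Q1.filter fun p => p.1 + p.2 + y ≤ N₂) = Rg 2 1 (N₂ + 1) k y M := by
    ext ⟨i, l⟩
    rw [Finset.mem_filter, hQ1m, mem_Rg]
    simp only
    omega
  rw [e4] at f2
  omega

theorem Aw_three (M1 M2 M3 : ℕ) : Aw ![M1, M2, M3] =
    (M1 + 1).choose 2 + (M2 + 1).choose 2 + (M3 + 1).choose 2 := by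
  unfold Aw
  rw [Fin.sum_univ_three]
  rfl

theorem Aw_two (y M : ℕ) : Aw ![y, M] = (y + 1).choose 2 + (M + 1).choose 2 := by
  unfold Aw
  rw [Fin.sum_univ_two]
  rfl

/-- Adding the three large points. -/
theorem hex_sum {ι : Type} [Fintype ι] {w : ι → ℕ} {d M1 M2 M3 N : ℕ} (h12 : M1 + M2 ≤ d)
    (h13 : M1 + M3 ≤ d) (h23 : M2 + M3 ≤ d)
    (h : RkS (PF ℚ w) (↑(Rg 1 0 (d + 1) (d - M1) M2 M3) : Set (ℕ × ℕ)) N) :
    RkS (PF ℚ (Sum.elim ![M1, M2, M3] w)) (↑(Tfin d) : Set (ℕ × ℕ)) (Aw ![M1, M2, M3] + N) := by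
  have h1 := bridge_hex (M1 := M1) (M2 := M2) (M3 := M3) (d := d) (w := w) (N := N) (by omega)
    (by omega) (by omega) (RkS.mono (by
      rintro ⟨i, l⟩ hp
      rw [Finset.mem_coe, mem_Rg] at hp
      simp only [Set.mem_ofPred_eq]
      omega) h)
  rw [coe_Tfin, Aw_three]
  have e : (M1 + 1).choose 2 + (M2 + 1).choose 2 + (M3 + 1).choose 2 + N =
      N + (M3 + 1).choose 2 + (M1 + 1).choose 2 + (M2 + 1).choose 2 := by omega
  rw [e]
  refine rkS_reindex (f := fun o => o.elim (Sum.inl 1) fun o => o.elim (Sum.inl 0) fun o =>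
    o.elim (Sum.inl 2) Sum.inr) (g := Sum.elim ![some none, none, some (some none)]
      (fun a => some (some (some a)))) ?_ ?_ h1
  · rintro (_ | _ | _ | a) <;> rfl
  · rintro (_ | _ | _ | a) <;> rfl

theorem ncb_hex {d M1 M2 M3 m W : ℕ} (h12 : M1 + M2 ≤ d) (h13 : M1 + M3 ≤ d)
    (h23 : M2 + M3 ≤ d) (h : NC m (Rg 1 0 (d + 1) (d - M1) M2 M3) W) :
    NCB ![M1, M2, M3] m (Tfin d) W := by
  intro ι _ w hw
  have hc := card_hex h12 h13 h23
  rw [← Aw_three] at hc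
  constructor
  · intro h1
    exact hex_sum h12 h13 h23 ((h ι w hw).1 (by omega))
  · intro h1
    have h2 := hex_sum h12 h13 h23 ((h ι w hw).2 (by omega))
    rwa [Nat.add_comm, hc] at h2

theorem ncb_corner {β : Type} [Fintype β] {u : β → ℕ} {m d d' e W : ℕ} (h : NCB u m (Tfin d') W)
    (hd : d = d' + e) : NCB u m ((Tfin d).filter fun p => e ≤ p.1) W := by
  classical
  have e1 : ((Tfin d).filter fun p => e ≤ p.1) = Corner d e := rfl
  have c1 := card_Corner (d := d) (e := e) (b := d' + 1) (by omega)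
  have c2 := card_Tfin d'
  have c3 : (Corner d e).card = (Tfin d').card := by
    have : d' + 1 + 1 = d' + 2 := rfl
    rw [this] at c1
    omega
  rw [e1]
  intro ι _ w hw
  have hK : ∀ k : ℕ, 0 < k → (k : ℚ) ≠ 0 := fun k hk => Nat.cast_ne_zero.2 (by omega)
  have hst := T_STAB ℚ _ (Sum.elim u w)
  have key : ∀ n, RkS (PF ℚ (Sum.elim u w)) (↑(Tfin d') : Set (ℕ × ℕ)) n →
      RkS (PF ℚ (Sum.elim u w)) (↑(Corner d e) : Set (ℕ × ℕ)) n := by
    intro n hn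
    rw [coe_Tfin] at hn
    exact RkS.compressX hst (d + 1) (fun k hk _ => hK k hk) (corner_dom (by omega) (by omega)) hn
  rw [c3]
  exact ⟨fun h1 => key _ ((h ι w hw).1 h1), fun h1 => key _ ((h ι w hw).2 h1)⟩

end Pool.Agent.W609.T
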