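import Mathlib
import Pool.Agent.W609.T.Cards

set_option autoImplicit false

/-!
# Exact ranks near the critical size: the strips are taken from the triangle
-/

namespace Pool.Agent.W609.T

open Polynomial Pool.Agent.H932R2 Pool.Agent.H932R3 Pool.Agent.H932R7
open Pool.Agent.W608 Pool.Agent.W611

/-- The exact ranks near the critical size. -/
def CritP {β : Type} [Fintype β] (u : β → ℕ) (m : ℕ) (Q : Finset (ℕ × ℕ)) : Prop :=
  ∀ k₀, 0 < k₀ → k₀ ≤ m → ∀ (ι : Type) [Fintype ι] (w : ι → ℕ), (∀ a, w a ≤ m) →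
    (∑ a, if w a < k₀ then w a * (w a + 1) else 0) ≤ (m + 1) ^ 4 →
    2 * Q.card < 2 * (Aw u + Aw w) + k₀ * (k₀ + 1) →
    2 * (Aw u + Aw w) < 2 * Q.card + k₀ * (k₀ + 1) →
    m * (m + 1) * (m + 2) + k₀ * (k₀ + 1) ≤ Nat.card {a // w a = k₀} * (k₀ * (k₀ + 1)) →
    RkS (PF ℚ (Sum.elim u w)) (↑Q : Set (ℕ × ℕ)) (min Q.card (Aw u + Aw w))

theorem crit_of {m : ℕ} {β : Type} [Fintype β] (u : β → ℕ)
    (Q : Finset (ℕ × ℕ)) {s δ c₀ W P3 P4 : ℕ} (hs : 0 < s) (hδ : 0 < δ)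
    (hc0 : s * (δ * (m + 1)) ≤ c₀)
    (hQ : ∀ a b, a < δ * (m + 1) → (((a, b) : ℕ × ℕ) ∈ Q ↔ b + s * a < c₀))
    (hP3 : P3 = (m + 1) ^ 3) (hP4 : P4 = (m + 1) ^ 4)
    (hT : NCB u m (Q.filter fun p => δ * m ≤ p.1) W)
    (hT0 : NCB u m (Q.filter fun p => δ * (m + 1) ≤ p.1) W)
    (hW : P3 ≤ W) (g1 : 2 * W + 2 * P3 ≤ δ * (c₀ - s * (δ * (m + 1))))
    (g2 : Aw u + W + 2 * P4 ≤ (Q.filter fun p => δ * m ≤ p.1).card) : CritP u m Q := by
  intro k₀ h0 h1 ι _ w hw htail hN1 hN2 hfr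
  obtain ⟨T, hT1, -, hT2, hT3, hT4⟩ := strip_id Q hδ hQ hc0
  refine crit_abs h0 h1 u Q hs hδ hc0 hQ hP3 hP4 hT hT0 (by omega) g2 ?_ w hw
    (by rw [hP4]; exact htail) hN1 hN2 hfr
  have h2 : 2 * 1 * T ≤ 2 * m * T := Nat.mul_le_mul_right _ (by omega)
  have h3 : s * (δ * δ) * 1 * (1 + 1) ≤ s * (δ * δ) * m * (m + 1) :=
    Nat.mul_le_mul (Nat.mul_le_mul_left _ (by omega)) (by omega)
  have h4 : 0 ≤ s * (δ * δ) * 1 * (1 + 1) := Nat.zero_le _
  omega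

theorem hex_area {d M1 M2 M3 y : ℕ} (hd : d = M1 + M2 + y) (h32 : M3 ≤ M2) (h21 : M2 ≤ M1) :
    y * d + M1 * (M1 + 1) + M2 * (M2 + 1) + M3 * (M3 + 1) ≤ (d + 1) * (d + 2) := by
  obtain ⟨a, rfl⟩ : ∃ a, M2 = M3 + a := ⟨M2 - M3, by omega⟩
  obtain ⟨b, rfl⟩ : ∃ b, M1 = M3 + a + b := ⟨M1 - (M3 + a), by omega⟩
  subst hd
  nlinarith [Nat.zero_le (M3 * M3), Nat.zero_le (M3 * a), Nat.zero_le (M3 * b),
    Nat.zero_le (a * a), Nat.zero_le (a * b), Nat.zero_le (b * b), Nat.zero_le (M3 * y),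
    Nat.zero_le (a * y), Nat.zero_le (b * y), Nat.zero_le (y * y)]

theorem hex_area' {d M1 M2 M3 y : ℕ} (hd : d = M1 + M2 + y) (h32 : M3 ≤ M2) (h21 : M2 ≤ M1) :
    y * d ≤ 2 * (Rg 1 0 (d + 1) (d - M1) M2 M3).card := by
  have h1 := card_hex (d := d) (M1 := M1) (M2 := M2) (M3 := M3) (by omega) (by omega) (by omega)
  have h2 := hex_area hd h32 h21
  have h3 := card_Tfin d
  have t1 := R4h.two_choose M1
  have t2 := R4h.two_choose M2
  have t3 := R4h.two_choose M3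
  omega

theorem caseC {m M1 M2 M3 y d : ℕ} (hm : 0 < m) (h3 : m ≤ M3) (h32 : M3 ≤ M2) (h21 : M2 ≤ M1)
    (hd : d = M1 + M2 + y) (hy : M3 < y) (hy4 : 4 * (m + 1) ≤ y)
    (hyd : 8192 * (m + 1) ^ 4 ≤ y * d) : CritP ![M1, M2, M3] m (Tfin d) := by
  obtain ⟨p, hp⟩ : ∃ p, p = m + 1 := ⟨_, rfl⟩
  obtain ⟨P2, hP2⟩ : ∃ P2, P2 = (m + 1) * (m + 1) := ⟨_, rfl⟩
  obtain ⟨P3, hP3⟩ : ∃ P3, P3 = (m + 1) * P2 := ⟨_, rfl⟩
  obtain ⟨P4, hP4⟩ : ∃ P4, P4 = (m + 1) ^ 4 := ⟨_, rfl⟩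
  have hP3' : P3 = (m + 1) ^ 3 := by rw [hP3, hP2]; ring
  have hP42 : P4 = P2 * P2 := by rw [hP4, hP2]; ring
  have hP43 : P4 = p * P3 := by rw [hP4, hP3', hp]; ring
  have hP34 : 2 * P3 ≤ P4 := by
    rw [hP43]
    exact Nat.mul_le_mul_right _ (by omega)
  rw [← hP4] at hyd
  have hmP : 2 * m + 4 ≤ 28 * P2 := by
    rw [hP2]
    nlinarith
  -- the degree is large
  have hd84 : 84 * P2 ≤ d := by
    by_contra hcon
    push Not at hcon
    have h1 : y * d ≤ (84 * P2) * (84 * P2) := Nat.mul_le_mul (by omega) (by omega)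
    have h2 : (84 * P2) * (84 * P2) = 7056 * P4 := by rw [hP42]; ring
    have h3 : 0 < P4 := by rw [hP4]; positivity
    omega
  -- the width of the strips
  obtain ⟨δ, hδ⟩ : ∃ δ, δ = y / (2 * p) := ⟨_, rfl⟩
  have hd1 : 2 * (δ * p) ≤ y := by
    have h1 : 2 * p * (y / (2 * p)) ≤ y := Nat.mul_div_le y (2 * p)
    rw [← hδ] at h1
    have h2 : 2 * p * δ = 2 * (δ * p) := by ring
    omega
  have hδ1 : 1 ≤ δ := by
    rw [hδ, Nat.le_div_iff_mul_le (by omega)]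
    omega
  have hd2 : y < 4 * (δ * p) := by
    have h1 : y < 2 * p * (y / (2 * p) + 1) := Nat.lt_mul_div_succ y (by omega)
    rw [← hδ] at h1
    have h2 : 2 * p * (δ + 1) = 2 * (δ * p) + 2 * p := by ring
    have h3 : 1 * p ≤ δ * p := Nat.mul_le_mul_right _ hδ1
    omega
  have hnc : ∀ e, e ≤ δ * p → NC m (Rg 1 0 (d - e + 1) (d - e - M1) M2 M3) (3 * P3) := by
    intro e he
    refine nc_Rg (Or.inl ⟨rfl, rfl⟩) hm hP2 hP3 h3 h32 (by omega) (by omega) (by omega) (by omega)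
      (fun _ => by omega) (fun h => by omega)
  have hncb : ∀ e, e ≤ δ * p →
      NCB ![M1, M2, M3] m ((Tfin d).filter fun q => e ≤ q.1) (3 * P3) := by
    intro e he
    exact ncb_corner (d' := d - e) (ncb_hex (by omega) (by omega) (by omega) (hnc e he)) (by omega)
  have hmδ : δ * m ≤ δ * p := Nat.mul_le_mul_left _ (by omega)
  have e1 : δ * (m + 1) = δ * p := by rw [hp]
  refine crit_of ![M1, M2, M3] (Tfin d) (s := 1) (δ := δ) (c₀ := d + 1) (W := 3 * P3)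
    (P3 := P3) (P4 := P4) one_pos hδ1 (by rw [e1]; omega) (fun a b hab => ?_) hP3' hP4
    (hncb _ hmδ) (hncb _ (by rw [e1])) (by omega) ?_ ?_
  · rw [mem_Tfin]
    omega
  · rw [e1]
    -- `8 P3 ≤ δ (d + 1 - δ p)`
    have h1 : y * d ≤ 4 * (δ * p) * (2 * (d + 1 - 1 * (δ * p))) :=
      Nat.mul_le_mul hd2.le (by omega)
    have h2 : 4 * (δ * p) * (2 * (d + 1 - 1 * (δ * p))) =
        p * (8 * (δ * (d + 1 - 1 * (δ * p)))) := by ring
    have h3 : p * (8192 * P3) = 8192 * P4 := by rw [hP43]; ring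
    have h4 : p * (8192 * P3) ≤ p * (8 * (δ * (d + 1 - 1 * (δ * p)))) := by omega
    have h5 := Nat.le_of_mul_le_mul_left h4 (by omega)
    omega
  · have c1 := card_hex (d := d - δ * m) (M1 := M1) (M2 := M2) (M3 := M3) (by omega) (by omega)
      (by omega)
    have c2 := hex_area' (d := d - δ * m) (M1 := M1) (M2 := M2) (M3 := M3) (y := y - δ * m)
      (by omega) h32 h21
    have c3 : ((Tfin d).filter fun q => δ * m ≤ q.1).card = (Tfin (d - δ * m)).card := by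
      have e2 : ((Tfin d).filter fun p => δ * m ≤ p.1) = Corner d (δ * m) := rfl
      have c1 := card_Corner (d := d) (e := δ * m) (b := d - δ * m + 1) (by omega)
      have c2 := card_Tfin (d - δ * m)
      have : d - δ * m + 1 + 1 = d - δ * m + 2 := rfl
      rw [this] at c1
      rw [e2]
      omega
    rw [c3, ← c1, Aw_three]
    have h1 : y * d ≤ (2 * (y - δ * m)) * (2 * (d - δ * m)) :=
      Nat.mul_le_mul (by omega) (by omega)
    have h2 : (2 * (y - δ * m)) * (2 * (d - δ * m)) = 4 * ((y - δ * m) * (d - δ * m)) := by ring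
    omega

end Pool.Agent.W609.T
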