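import Mathlib
import Pool.Agent.W609.T.CaseC

set_option autoImplicit false

/-!
# Exact ranks near the critical size: the strips are taken from a rectangle
-/

namespace Pool.Agent.W609.T

open Polynomial Pool.Agent.H932R2 Pool.Agent.H932R3 Pool.Agent.H932R7
open Pool.Agent.W608 Pool.Agent.W611

/-- Translation to the right. -/
theorem ncb_shift {β : Type} [Fintype β] {u : β → ℕ} {m e W : ℕ} {Q' Q : Finset (ℕ × ℕ)}
    (h : NCB u m Q' W) (hc : Q'.card = Q.card)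
    (hQ : ∀ i l, ((i, l) : ℕ × ℕ) ∈ Q' → ∀ x, e ≤ x → x ≤ e + i → ((x, l) : ℕ × ℕ) ∈ Q) :
    NCB u m Q W := by
  classical
  intro ι _ w hw
  have hst := T_STAB ℚ _ (Sum.elim u w)
  obtain ⟨B, hB⟩ : ∃ B, B = Q.sup (fun p => p.1 + p.2) := ⟨_, rfl⟩
  have hBle : ∀ p ∈ Q, p.1 + p.2 ≤ B := fun p hp => by
    rw [hB]
    exact Finset.le_sup (f := fun p : ℕ × ℕ => p.1 + p.2) hp
  have key : ∀ n, RkS (PF ℚ (Sum.elim u w)) (↑Q' : Set (ℕ × ℕ)) n →
      RkS (PF ℚ (Sum.elim u w)) (↑Q : Set (ℕ × ℕ)) n := by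
    intro n hn
    refine RkS.compressX hst B (hKz B) (domX_of_card fun i q hp => ?_) hn
    refine ⟨Finset.Icc e (e + i), ?_, fun x hx => ?_⟩
    · rw [Nat.card_Icc]
      omega
    · rw [Finset.mem_Icc] at hx
      have h1 := hQ i q hp x hx.1 hx.2
      have h2 := hBle _ h1
      simp only at h2
      exact ⟨by omega, h1⟩
  rw [← hc]
  exact ⟨fun h1 => key _ ((h ι w hw).1 h1), fun h1 => key _ ((h ι w hw).2 h1)⟩

theorem tz_sum {ι : Type} [Fintype ι] {w : ι → ℕ} {k N₂ y M n : ℕ} (hk : 2 * k ≤ N₂)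
    (h1 : M ≤ k + 1) (h2 : y ≤ k + 1) (h5 : M + y ≤ N₂)
    (h : RkS (PF ℚ w) (↑(Rg 2 1 (N₂ + 1) k y M) : Set (ℕ × ℕ)) n) :
    RkS (PF ℚ (Sum.elim ![y, M] w)) (↑(linF 2 k (N₂ + 1 - 2 * k)) : Set (ℕ × ℕ))
      (Aw ![y, M] + n) := by
  have g1 := bridge_tz (k := k) (N₂ := N₂) (y := y) (M := M) (w := w) (n := n) h1 h2 (by omega)
    (by omega) (by omega) (RkS.mono (by
      rintro ⟨i, l⟩ hp
      rw [Finset.mem_coe, mem_Rg] at hp
      simp only [Set.mem_ofPred_eq]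
      omega) h)
  rw [Aw_two]
  have e : (y + 1).choose 2 + (M + 1).choose 2 + n = n + (M + 1).choose 2 + (y + 1).choose 2 := by
    omega
  rw [e]
  refine RkS.mono ?_ (rkS_reindex (f := fun o => o.elim (Sum.inl 0) fun o =>
    o.elim (Sum.inl 1) Sum.inr) (g := Sum.elim ![none, some none]
      (fun a => some (some a))) ?_ ?_ g1)
  · rintro ⟨i, l⟩ hp
    obtain ⟨hp1, hp2⟩ := hp
    simp only at hp1 hp2
    rw [Finset.mem_coe, mem_linF]
    omega
  · rintro (_ | _ | a) <;> rfl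
  · rintro (_ | _ | a) <;> rfl

theorem ncb_tz {k N₂ y M m W : ℕ} (hk : 2 * k ≤ N₂)
    (h1 : M ≤ k + 1) (h2 : y ≤ k + 1) (h5 : M + y ≤ N₂) (h : NC m (Rg 2 1 (N₂ + 1) k y M) W) :
    NCB ![y, M] m (linF 2 k (N₂ + 1 - 2 * k)) W := by
  intro ι _ w hw
  have hc := card_tzR hk h1 h2 h5
  rw [← Aw_two] at hc
  constructor
  · intro g
    exact tz_sum hk h1 h2 h5 ((h ι w hw).1 (by omega))
  · intro g
    have g2 := tz_sum hk h1 h2 h5 ((h ι w hw).2 (by omega))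
    rw [Nat.add_comm] at hc
    rwa [hc] at g2

/-- The filter is a translate. -/
theorem linF_filter {k e T : ℕ} (he : e ≤ k) :
    (linF 2 (k - e) T).card = ((linF 2 k T).filter fun p => e ≤ p.1).card := by
  classical
  refine Finset.card_bij' (fun p _ => (p.1 + e, p.2)) (fun p _ => (p.1 - e, p.2)) ?_ ?_ ?_ ?_
  · rintro ⟨i, l⟩ hp
    rw [mem_linF] at hp
    rw [Finset.mem_filter, mem_linF]
    simp only
    omega
  · rintro ⟨i, l⟩ hp
    rw [Finset.mem_filter, mem_linF] at hp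
    rw [mem_linF]
    simp only at hp ⊢
    omega
  · rintro ⟨i, l⟩ _
    simp only
    rw [Prod.mk.injEq]
    exact ⟨by omega, rfl⟩
  · rintro ⟨i, l⟩ hp
    rw [Finset.mem_filter, mem_linF] at hp
    simp only at hp ⊢
    rw [Prod.mk.injEq]
    exact ⟨by omega, rfl⟩

theorem tz_area {M1 M2 M3 y : ℕ} (h3 : M3 ≤ y) :
    M1 * M2 ≤ (Rg 2 1 ((M2 + y) + (M1 + y) + 1) (M2 + y) y M3).card ∨ M1 < M2 := by
  rcases Nat.lt_or_ge M1 M2 with h | h
  · exact Or.inr h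
  · left
    have c1 := card_tzR (k := M2 + y) (N₂ := (M2 + y) + (M1 + y)) (y := y) (M := M3) (by omega)
      (by omega) (by omega) (by omega)
    have c2 := card_linF 2 (M2 + y) ((M2 + y) + (M1 + y) + 1 - 2 * (M2 + y))
    have e1 : 2 * (M2 + y) + 2 * ((M2 + y) + (M1 + y) + 1 - 2 * (M2 + y)) =
        2 * (M1 + y + 1) := by omega
    rw [e1] at c2
    have t1 := R4h.two_choose y
    have t3 := R4h.two_choose M3
    have e2 : (M2 + y + 1) * (2 * (M1 + y + 1)) =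
        2 * (M1 * M2) + 2 * ((y + 1) * (M1 + M2)) + 2 * ((y + 1) * (y + 1)) := by ring
    have e3 : M3 * (M3 + 1) ≤ y * (y + 1) := Nat.mul_le_mul h3 (by omega)
    have e4 : y * (y + 1) ≤ (y + 1) * (y + 1) := Nat.mul_le_mul_right _ (by omega)
    omega

theorem critB {m M1 M2 M3 y : ℕ} (hm : 0 < m) (h3 : m ≤ M3) (h32 : M3 ≤ M2) (h21 : M2 ≤ M1)
    (hy : M3 < y) (hM2 : 4 * (m + 1) ≤ M2) (hM1 : 32 * (m + 1) ^ 2 ≤ M1)
    (hMM : 64 * (m + 1) ^ 4 ≤ M1 * M2) :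
    CritP ![y, M3] m (linF 2 (M2 + y) ((M2 + y) + (M1 + y) + 1 - 2 * (M2 + y))) := by
  obtain ⟨p, hp⟩ : ∃ p, p = m + 1 := ⟨_, rfl⟩
  obtain ⟨P2, hP2⟩ : ∃ P2, P2 = (m + 1) * (m + 1) := ⟨_, rfl⟩
  obtain ⟨P3, hP3⟩ : ∃ P3, P3 = (m + 1) * P2 := ⟨_, rfl⟩
  obtain ⟨P4, hP4⟩ : ∃ P4, P4 = (m + 1) ^ 4 := ⟨_, rfl⟩
  have hP3' : P3 = (m + 1) ^ 3 := by rw [hP3, hP2]; ring
  have hP42 : P4 = P2 * P2 := by rw [hP4, hP2]; ring
  have hP43 : P4 = p * P3 := by rw [hP4, hP3', hp]; ring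
  have hP34 : 2 * P3 ≤ P4 := by
    rw [hP43]
    exact Nat.mul_le_mul_right _ (by omega)
  have hP2' : (m + 1) ^ 2 = P2 := by rw [hP2]; ring
  rw [hP2'] at hM1
  rw [← hP4] at hMM
  have hmP : 2 * m + 4 ≤ 4 * P2 := by
    rw [hP2]
    nlinarith
  -- the width of the strips
  obtain ⟨δ, hδ⟩ : ∃ δ, δ = M2 / (2 * p) := ⟨_, rfl⟩
  have hd1 : 2 * (δ * p) ≤ M2 := by
    have h1 : 2 * p * (M2 / (2 * p)) ≤ M2 := Nat.mul_div_le M2 (2 * p)
    rw [← hδ] at h1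
    have h2 : 2 * p * δ = 2 * (δ * p) := by ring
    omega
  have hδ1 : 1 ≤ δ := by
    rw [hδ, Nat.le_div_iff_mul_le (by omega)]
    omega
  have hd2 : M2 < 4 * (δ * p) := by
    have h1 : M2 < 2 * p * (M2 / (2 * p) + 1) := Nat.lt_mul_div_succ M2 (by omega)
    rw [← hδ] at h1
    have h2 : 2 * p * (δ + 1) = 2 * (δ * p) + 2 * p := by ring
    have h3 : 1 * p ≤ δ * p := Nat.mul_le_mul_right _ hδ1
    omega
  obtain ⟨T, hT⟩ : ∃ T, T = (M2 + y) + (M1 + y) + 1 - 2 * (M2 + y) := ⟨_, rfl⟩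
  rw [← hT]
  have hncb : ∀ e, e ≤ δ * p →
      NCB ![y, M3] m ((linF 2 (M2 + y) T).filter fun q => e ≤ q.1) (3 * P3) := by
    intro e he
    obtain ⟨N₂, hN₂⟩ : ∃ N₂, N₂ = (M2 - e + y) + (M1 - e + y) := ⟨_, rfl⟩
    have h1 : NC m (Rg 2 1 (N₂ + 1) (M2 - e + y) y M3) (3 * P3) :=
      nc_Rg (Or.inr ⟨rfl, rfl⟩) hm hP2 hP3 h3 hy.le (by omega) (by omega) (by omega) (by omega)
        (fun h => by omega) (fun _ => by omega)
    have h2 := ncb_tz (k := M2 - e + y) (N₂ := N₂) (y := y) (M := M3) (by omega) (by omega)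
      (by omega) (by omega) h1
    have e1 : N₂ + 1 - 2 * (M2 - e + y) = T := by omega
    have e2 : M2 - e + y = M2 + y - e := by omega
    rw [e1, e2] at h2
    refine ncb_shift (e := e) h2 (linF_filter (by omega)) ?_
    intro i l hil x hx1 hx2
    rw [mem_linF] at hil
    rw [Finset.mem_filter, mem_linF]
    simp only
    omega
  have hmδ : δ * m ≤ δ * p := Nat.mul_le_mul_left _ (by omega)
  have e1 : δ * (m + 1) = δ * p := by rw [hp]
  refine crit_of ![y, M3] _ (s := 2) (δ := δ) (c₀ := (M2 + y) + (M1 + y) + 1) (W := 3 * P3)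
    (P3 := P3) (P4 := P4) two_pos hδ1 (by rw [e1]; omega) (fun a b hab => ?_) hP3' hP4
    (hncb _ hmδ) (hncb _ (by rw [e1])) (by omega) ?_ ?_
  · rw [mem_linF]
    omega
  · rw [e1]
    have h1 : M2 * M1 ≤ 4 * (δ * p) * (M2 + y + (M1 + y) + 1 - 2 * (δ * p)) :=
      Nat.mul_le_mul hd2.le (by omega)
    have h2 : 4 * (δ * p) * (M2 + y + (M1 + y) + 1 - 2 * (δ * p)) =
        p * (4 * (δ * (M2 + y + (M1 + y) + 1 - 2 * (δ * p)))) := by ring
    have h3 : p * (64 * P3) = 64 * P4 := by rw [hP43]; ring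
    have h5 : M2 * M1 = M1 * M2 := Nat.mul_comm _ _
    have h4 : p * (64 * P3) ≤ p * (4 * (δ * (M2 + y + (M1 + y) + 1 - 2 * (δ * p)))) := by omega
    have h5 := Nat.le_of_mul_le_mul_left h4 (by omega)
    omega
  · rw [← linF_filter (by omega)]
    have c1 := card_tzR (k := M2 - δ * m + y) (N₂ := (M2 - δ * m + y) + (M1 - δ * m + y))
      (y := y) (M := M3) (by omega) (by omega) (by omega) (by omega)
    have e2 : (M2 - δ * m + y) + (M1 - δ * m + y) + 1 - 2 * (M2 - δ * m + y) = T := by omega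
    have e3 : M2 - δ * m + y = M2 + y - δ * m := by omega
    have c2 : (M1 - δ * m) * (M2 - δ * m) ≤ _ :=
      (tz_area (M1 := M1 - δ * m) (M2 := M2 - δ * m) (M3 := M3) (y := y) hy.le).resolve_right
        (by omega)
    rw [e2] at c1
    rw [e3] at c1 c2
    rw [← c1, Aw_two]
    have h1 : M1 * M2 ≤ (2 * (M1 - δ * m)) * (2 * (M2 - δ * m)) :=
      Nat.mul_le_mul (by omega) (by omega)
    have h2 : (2 * (M1 - δ * m)) * (2 * (M2 - δ * m)) = 4 * ((M1 - δ * m) * (M2 - δ * m)) := by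
      ring
    omega

theorem caseB {m M1 M2 M3 y d : ℕ} (hm : 0 < m) (h3 : m ≤ M3) (h32 : M3 ≤ M2) (h21 : M2 ≤ M1)
    (hd : d = M1 + M2 + y) (hy : M3 < y) (hM2 : 4 * (m + 1) ≤ M2)
    (hM1 : 32 * (m + 1) ^ 2 ≤ M1) (hMM : 64 * (m + 1) ^ 4 ≤ M1 * M2) :
    CritP ![M1, M2, M3] m (Tfin d) := by
  intro k₀ h0 h1 ι _ w hw htail hN1 hN2 hfr
  have c1 := card_hex (d := d) (M1 := M1) (M2 := M2) (M3 := M3) (by omega) (by omega) (by omega)
  have hd3 := card_Tfin d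
  have t1 := R4h.two_choose M1
  have t2 := R4h.two_choose M2
  have t3 := R4h.two_choose M3
  have ty := R4h.two_choose y
  obtain ⟨T, hT⟩ : ∃ T, T = (M2 + y) + (M1 + y) + 1 - 2 * (M2 + y) := ⟨_, rfl⟩
  obtain ⟨Z, hZ⟩ : ∃ Z, Z = (linF 2 (M2 + y) T).card := ⟨_, rfl⟩
  have c2 := card_linF 2 (M2 + y) T
  rw [← hZ] at c2
  have e1 : 2 * (M2 + y) + 2 * T = 2 * (M1 + y + 1) := by omega
  rw [e1] at c2
  have e2 : (M2 + y + 1) * (2 * (M1 + y + 1)) + M1 * (M1 + 1) + M2 * (M2 + 1) =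
      (d + 1) * (d + 2) + y * (y + 1) := by
    rw [hd]
    ring
  have e3 : M3 * (M3 + 1) ≤ y * (y + 1) := Nat.mul_le_mul hy.le (by omega)
  have hAu := Aw_three M1 M2 M3
  have hAv := Aw_two y M3
  -- the number of free coefficients
  have hZ1 : Z + (M1 + 1).choose 2 + (M2 + 1).choose 2 = (Tfin d).card + (y + 1).choose 2 := by
    omega
  have h := critB hm h3 h32 h21 hy hM2 hM1 hMM k₀ h0 h1 ι w hw htail (by
    rw [← hT, ← hZ]
    omega) (by
    rw [← hT, ← hZ]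
    omega) hfr
  rw [← hT, ← hZ] at h
  have hc3 := card_tzR (k := M2 + y) (N₂ := (M2 + y) + (M1 + y)) (y := y) (M := M3) (by omega)
      (by omega) (by omega) (by omega)
  rw [← hT, ← hZ] at hc3
  obtain ⟨n, hn⟩ : ∃ n, min Z (Aw ![y, M3] + Aw w) = n + (y + 1).choose 2 :=
    ⟨min Z (Aw ![y, M3] + Aw w) - (y + 1).choose 2, by omega⟩
  rw [hn] at h
  have g1 : RkS (PF ℚ (ov y (ov M3 w))) (TzS (M2 + y) ((M2 + y) + (M1 + y)))
      (n + (y + 1).choose 2) := by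
    refine RkS.mono ?_ (rkS_reindex (f := Sum.elim ![none, some none] (fun a => some (some a)))
      (g := fun o => o.elim (Sum.inl 0) fun o => o.elim (Sum.inl 1) Sum.inr) ?_ ?_ h)
    · rintro ⟨i, l⟩ hp
      rw [Finset.mem_coe, mem_linF] at hp
      refine ⟨by simp only; omega, by simp only; omega⟩
    · rintro (b | a)
      · fin_cases b <;> rfl
      · rfl
    · rintro (b | a)
      · fin_cases b <;> rfl
      · rfl
  have g2 := bridge_back (k₁ := M2 + y) (k₂ := M1 + y) (by omega) g1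
  have g3 := bridge2 (d := d) (M1 := M1) (M2 := M2) (w := ov M3 w) (N := n) (by omega) (RkS.mono (by
    rintro ⟨i, l⟩ hp
    simp only [Set.mem_ofPred_eq] at hp ⊢
    omega) g2)
  have e4 : min (Tfin d).card (Aw ![M1, M2, M3] + Aw w) =
      n + (M1 + 1).choose 2 + (M2 + 1).choose 2 := by omega
  rw [e4, coe_Tfin]
  refine rkS_reindex (f := fun o => o.elim (Sum.inl 1) fun o => o.elim (Sum.inl 0) fun o =>
    o.elim (Sum.inl 2) Sum.inr) (g := Sum.elim ![some none, none, some (some none)]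
      (fun a => some (some (some a)))) ?_ ?_ g3
  · rintro (_ | _ | _ | a) <;> rfl
  · rintro (_ | _ | _ | a) <;> rfl

end Pool.Agent.W609.T
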