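import Mathlib
import Pool.Agent.W609.T.CaseB

set_option autoImplicit false

/-!
# Exact ranks near the critical size: the second multiplicity is small; all exact ranks
-/

namespace Pool.Agent.W609.T

open Polynomial Pool.Agent.H932R2 Pool.Agent.H932R3 Pool.Agent.H932R7
open Pool.Agent.W608 Pool.Agent.W611

theorem hex_area2 {d M1 M2 M3 y : ℕ} (hd : d = M1 + M2 + y) (h32 : M3 ≤ M2) (h21 : M2 ≤ M1) :
    (M2 + 1) * M1 ≤ 2 * (Rg 1 0 (d + 1) (d - M1) M2 M3).card := by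
  have h1 := card_hex (d := d) (M1 := M1) (M2 := M2) (M3 := M3) (by omega) (by omega) (by omega)
  have h2 : (M2 + 1) * M1 + M1 * (M1 + 1) + M2 * (M2 + 1) + M3 * (M3 + 1) ≤
      (d + 1) * (d + 2) := by
    obtain ⟨a, rfl⟩ : ∃ a, M2 = M3 + a := ⟨M2 - M3, by omega⟩
    obtain ⟨b, rfl⟩ : ∃ b, M1 = M3 + a + b := ⟨M1 - (M3 + a), by omega⟩
    subst hd
    nlinarith [Nat.zero_le (M3 * M3), Nat.zero_le (M3 * a), Nat.zero_le (M3 * b),
      Nat.zero_le (a * a), Nat.zero_le (a * b), Nat.zero_le (b * b), Nat.zero_le (M3 * y),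
      Nat.zero_le (a * y), Nat.zero_le (b * y), Nat.zero_le (y * y)]
  have h3 := card_Tfin d
  have t1 := R4h.two_choose M1
  have t2 := R4h.two_choose M2
  have t3 := R4h.two_choose M3
  omega

theorem ncb_trap {M1 M2 M3 m k W : ℕ} (hm : 0 < m) (h3 : m ≤ M3) (h32 : M3 ≤ M2)
    (hk : M2 ≤ k) (hbig : 8 * (M2 + 2) ^ 3 ≤ (k + 1) * (k + 2 * M1 + 2)) (hW : W0 M2 ≤ W) :
    NCB ![M1, M2, M3] m (Tfin (M1 + k)) W := by
  intro ι _ w hw
  obtain ⟨w', hw'⟩ : ∃ w' : Fin 2 ⊕ ι → ℕ, w' = Sum.elim ![M2, M3] w := ⟨_, rfl⟩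
  have hw'm : ∀ a, w' a ≤ M2 := by
    rw [hw']
    rintro (b | a)
    · fin_cases b
      · exact le_rfl
      · exact h32
    · exact (hw a).trans (by omega)
  have hA : Aw w' = Aw ![M2, M3] + Aw w := by rw [hw', Aw_sum]
  have hAv := Aw_two M2 M3
  have hAu := Aw_three M1 M2 M3
  obtain ⟨g1, g2⟩ := nc_trap ℚ (m := M2) (by omega) hw'm (M := M1) (k := k) hk hbig
  have e0 : 2 * (M2 + 1).choose 3 + (M2 + 1).choose 2 = W0 M2 := rfl
  rw [e0] at g1 g2
  have c1 := card_trapF M1 k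
  have c2 := card_Tfin (M1 + k)
  have c3 := R4h.two_choose M1
  have c4 : (M1 + k + 1) * (M1 + k + 2) = (k + 1) * (k + 2 * M1 + 2) + M1 * (M1 + 1) := by ring
  have key : ∀ n, RkS (PF ℚ w') (↑(trapF M1 k) : Set (ℕ × ℕ)) n →
      RkS (PF ℚ (Sum.elim ![M1, M2, M3] w)) (↑(Tfin (M1 + k)) : Set (ℕ × ℕ))
        (n + (M1 + 1).choose 2) := by
    intro n hn
    have h1 := big_ov hn
    rw [coe_Tfin]
    refine rkS_reindex (f := fun o => o.elim (Sum.inl 0) (Sum.elim ![Sum.inl 1, Sum.inl 2] Sum.inr))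
      (g := Sum.elim ![none, some (Sum.inl 0), some (Sum.inl 1)] (fun a => some (Sum.inr a)))
      ?_ ?_ h1
    · rintro (_ | b | a)
      · rfl
      · fin_cases b <;> rfl
      · rfl
    · rw [hw']
      rintro (_ | b | a)
      · rfl
      · fin_cases b <;> rfl
      · rfl
  constructor
  · intro h
    have h1 := key _ (g1 (by omega))
    have e : Aw ![M1, M2, M3] + Aw w = Aw w' + (M1 + 1).choose 2 := by omega
    rw [e]
    exact h1
  · intro h
    have h1 := key _ (g2 (by omega))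
    have e : (Tfin (M1 + k)).card = (trapF M1 k).card + (M1 + 1).choose 2 := by omega
    rw [e]
    exact h1

theorem caseD {m M1 M2 M3 y d : ℕ} (hm : 0 < m) (h3 : m ≤ M3) (h32 : M3 ≤ M2) (h21 : M2 ≤ M1)
    (hd : d = M1 + M2 + y) (hy : M3 < y) (hM2 : M2 < 4 * (m + 1))
    (hM1 : 128 * (m + 1) ^ 3 ≤ M1) : CritP ![M1, M2, M3] m (Tfin d) := by
  obtain ⟨p, hp⟩ : ∃ p, p = m + 1 := ⟨_, rfl⟩
  obtain ⟨P2, hP2⟩ : ∃ P2, P2 = (m + 1) * (m + 1) := ⟨_, rfl⟩
  obtain ⟨P3, hP3⟩ : ∃ P3, P3 = (m + 1) * P2 := ⟨_, rfl⟩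
  obtain ⟨P4, hP4⟩ : ∃ P4, P4 = (m + 1) ^ 4 := ⟨_, rfl⟩
  have hP3' : P3 = (m + 1) ^ 3 := by rw [hP3, hP2]; ring
  have hP43 : P4 = p * P3 := by rw [hP4, hP3', hp]; ring
  have hP34 : 2 * P3 ≤ P4 := by
    rw [hP43]
    exact Nat.mul_le_mul_right _ (by omega)
  have hP23 : 2 * P2 ≤ P3 := by
    rw [hP3]
    exact Nat.mul_le_mul_right _ (by omega)
  have hP12 : 2 * (m + 1) ≤ P2 := by
    rw [hP2]
    exact Nat.mul_le_mul_right _ (by omega)
  rw [← hP3'] at hM1
  have hW : W0 M2 ≤ 22 * P3 := by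
    obtain ⟨Q3, hQ3⟩ : ∃ Q3, Q3 = (M2 + 1) * ((M2 + 1) * (M2 + 1)) := ⟨_, rfl⟩
    obtain ⟨n1, -⟩ := num_p (m := M2) (P2 := (M2 + 1) * (M2 + 1)) (P3 := Q3) (by omega) rfl hQ3
      rfl rfl
    have h1 : Q3 ≤ 64 * P3 := by
      have h2 : M2 + 1 ≤ 4 * (m + 1) := by omega
      rw [hQ3, hP3, hP2]
      calc (M2 + 1) * ((M2 + 1) * (M2 + 1)) ≤
            (4 * (m + 1)) * ((4 * (m + 1)) * (4 * (m + 1))) :=
            Nat.mul_le_mul h2 (Nat.mul_le_mul h2 h2)
        _ = _ := by ring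
    omega
  have hbig : ∀ k, M2 ≤ k → 8 * (M2 + 2) ^ 3 ≤ (k + 1) * (k + 2 * M1 + 2) := by
    intro k hk
    have h1 : (M2 + 1) * (2 * M1) ≤ (k + 1) * (k + 2 * M1 + 2) :=
      Nat.mul_le_mul (by omega) (by omega)
    refine le_trans ?_ h1
    have h2 : 8 * (M2 + 2) ^ 3 ≤ (M2 + 1) * (27 * ((M2 + 1) * (M2 + 1))) := by
      have h0 : 1 ≤ M2 := by omega
      obtain ⟨z, rfl⟩ : ∃ z, M2 = z + 1 := ⟨M2 - 1, by omega⟩
      nlinarith [Nat.zero_le (z * z), Nat.zero_le (z * z * z)]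
    refine h2.trans (Nat.mul_le_mul_left _ ?_)
    have h3 : (M2 + 1) * (M2 + 1) ≤ (4 * (m + 1)) * (4 * (m + 1)) :=
      Nat.mul_le_mul (by omega) (by omega)
    have h4 : (4 * (m + 1)) * (4 * (m + 1)) = 16 * P2 := by rw [hP2]; ring
    omega
  have hncb : ∀ e, e ≤ m + 1 →
      NCB ![M1, M2, M3] m ((Tfin d).filter fun q => e ≤ q.1) (22 * P3) := by
    intro e he
    have h1 := ncb_trap (M1 := M1) (k := M2 + y - e) hm h3 h32 (by omega)
      (hbig _ (by omega)) hW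
    exact ncb_corner h1 (by omega)
  refine crit_of ![M1, M2, M3] (Tfin d) (s := 1) (δ := 1) (c₀ := d + 1) (W := 22 * P3)
    (P3 := P3) (P4 := P4) one_pos one_pos (by omega) (fun a b hab => ?_) hP3' hP4
    (hncb _ (by omega)) (hncb _ (by omega)) (by omega) ?_ ?_
  · rw [mem_Tfin]
    omega
  · have h1 : m + 1 ≤ P3 := by omega
    omega
  · have c1 := card_hex (d := d - 1 * m) (M1 := M1) (M2 := M2) (M3 := M3) (by omega) (by omega)
      (by omega)
    have c2 := hex_area2 (d := d - 1 * m) (M1 := M1) (M2 := M2) (M3 := M3) (y := y - m)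
      (by omega) h32 h21
    have c3 : ((Tfin d).filter fun q => 1 * m ≤ q.1).card = (Tfin (d - 1 * m)).card := by
      have e2 : ((Tfin d).filter fun p => 1 * m ≤ p.1) = Corner d (1 * m) := rfl
      have c1 := card_Corner (d := d) (e := 1 * m) (b := d - 1 * m + 1) (by omega)
      have c2 := card_Tfin (d - 1 * m)
      have : d - 1 * m + 1 + 1 = d - 1 * m + 2 := rfl
      rw [this] at c1
      rw [e2]
      omega
    rw [c3, ← c1, Aw_three]
    have h1 : p * (128 * P3) ≤ (M2 + 1) * M1 := Nat.mul_le_mul (by omega) hM1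
    have h2 : p * (128 * P3) = 128 * P4 := by rw [hP43]; ring
    omega

/-- All exact ranks with three points of arbitrary multiplicity. -/
theorem rank3 {m M1 M2 M3 y d : ℕ} (hm : 0 < m) (h3 : m ≤ M3) (h32 : M3 ≤ M2) (h21 : M2 ≤ M1)
    (hd : d = M1 + M2 + y) (hy : M3 < y)
    (hbig : 131072 * (m + 1) ^ 4 + (M1 * (M1 + 1) + M2 * (M2 + 1) + M3 * (M3 + 1)) ≤
      (d + 1) * (d + 2)) (ι : Type) [Fintype ι] (w : ι → ℕ) (hw : ∀ a, w a ≤ m) :
    RkS (PF ℚ (Sum.elim ![M1, M2, M3] w)) (Tset d)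
      (min ((d + 2).choose 2) (Aw ![M1, M2, M3] + Aw w)) := by
  obtain ⟨P4, hP4⟩ : ∃ P4, P4 = (m + 1) ^ 4 := ⟨_, rfl⟩
  obtain ⟨P3, hP3⟩ : ∃ P3, P3 = (m + 1) ^ 3 := ⟨_, rfl⟩
  obtain ⟨P2, hP2⟩ : ∃ P2, P2 = (m + 1) ^ 2 := ⟨_, rfl⟩
  have hP42 : P4 = P2 * P2 := by rw [hP4, hP2]; ring
  have hP43 : P4 = (m + 1) * P3 := by rw [hP4, hP3]; ring
  have hP22 : P2 = (m + 1) * (m + 1) := by rw [hP2]; ring
  have hP20 : 0 < P2 := by rw [hP2]; positivity
  have hP40 : P2 ≤ P4 := by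
    rw [hP42]
    exact Nat.le_mul_of_pos_left _ hP20
  rw [← hP4] at hbig
  have c1 := card_hex (d := d) (M1 := M1) (M2 := M2) (M3 := M3) (by omega) (by omega) (by omega)
  have c2 := card_Tfin d
  have hd2 := H932R7.two_choose d
  have t1 := R4h.two_choose M1
  have t2 := R4h.two_choose M2
  have t3 := R4h.two_choose M3
  have hAu := Aw_three M1 M2 M3
  obtain ⟨N, hN⟩ : ∃ N, N = (Rg 1 0 (d + 1) (d - M1) M2 M3).card := ⟨_, rfl⟩
  rw [← hN] at c1
  have hN4 : 65536 * P4 ≤ N := by omega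
  -- an upper bound for `N`
  have hNup : N ≤ M1 * M2 + (y + 1) * (d + 1) := by
    have e1 : (d + 1) * (d + 2) + y * (y + 1) = 2 * (M1 * M2 + (y + 1) * (d + 1)) +
        M1 * (M1 + 1) + M2 * (M2 + 1) := by
      rw [hd]
      ring
    omega
  have hcrit : CritP ![M1, M2, M3] m (Tfin d) := by
    by_cases hC : 4 * (m + 1) ≤ y ∧ 8192 * P4 ≤ y * d
    · exact caseC hm h3 h32 h21 hd hy hC.1 (by rw [← hP4]; exact hC.2)
    · have hyd : (y + 1) * (d + 1) ≤ 4 * (y * d) := by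
        have h1 : (y + 1) * (d + 1) ≤ (2 * y) * (2 * d) := Nat.mul_le_mul (by omega) (by omega)
        have h2 : (2 * y) * (2 * d) = 4 * (y * d) := by ring
        omega
      rcases Nat.lt_or_ge M2 (4 * (m + 1)) with hM2 | hM2
      · -- the second multiplicity is small
        refine caseD hm h3 h32 h21 hd hy hM2 ?_
        rw [← hP3]
        have e1 : (m + 1) * (128 * P3) = 128 * P4 := by rw [hP43]; ring
        by_contra hcon
        push Not at hcon
        have h1 : (m + 1) * M1 ≤ (m + 1) * (128 * P3) := Nat.mul_le_mul_left _ hcon.le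
        have h2 : M1 * M2 ≤ M1 * (4 * (m + 1)) := Nat.mul_le_mul_left _ hM2.le
        have h3 : M1 * (4 * (m + 1)) = 4 * ((m + 1) * M1) := by ring
        rcases Nat.lt_or_ge y (4 * (m + 1)) with hy4 | hy4
        · have h4 : (y + 1) * (d + 1) ≤ (4 * (m + 1)) * (M1 + 8 * (m + 1)) :=
            Nat.mul_le_mul (by omega) (by omega)
          have h5 : (4 * (m + 1)) * (M1 + 8 * (m + 1)) = 4 * ((m + 1) * M1) + 32 * P2 := by
            rw [hP22]
            ring
          omega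
        · have h4 : y * d < 8192 * P4 := by
            by_contra h
            exact hC ⟨hy4, not_lt.1 h⟩
          omega
      · -- the second multiplicity is not small
        have hMM : 8192 * P4 ≤ M1 * M2 := by
          rcases Nat.lt_or_ge y (4 * (m + 1)) with hy4 | hy4
          · have h4 : (y + 1) * (d + 1) ≤ M2 * (3 * M1) := Nat.mul_le_mul (by omega) (by omega)
            have h5 : M2 * (3 * M1) = 3 * (M1 * M2) := by ring
            omega
          · have h4 : y * d < 8192 * P4 := by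
              by_contra h
              exact hC ⟨hy4, not_lt.1 h⟩
            omega
        refine caseB hm h3 h32 h21 hd hy hM2 ?_ (by rw [← hP4]; omega)
        rw [← hP2]
        by_contra hcon
        push Not at hcon
        have h1 : M1 * M2 ≤ (32 * P2) * (32 * P2) := Nat.mul_le_mul hcon.le (by omega)
        have h2 : (32 * P2) * (32 * P2) = 1024 * P4 := by rw [hP42]; ring
        omega
  have h := rank_abs ![M1, M2, M3] (N := N) hm (Tfin d) (by omega) (by rw [← hP4]; omega)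
    (fun k₀ h0 h1 κ _ v hv htail hN1 hN2 hfr => by
      have h2 := hcrit k₀ h0 h1 κ v hv htail (by omega) (by omega) hfr
      have e : min (Tfin d).card (Aw ![M1, M2, M3] + Aw v) =
          Aw ![M1, M2, M3] + min N (Aw v) := by omega
      rw [e] at h2
      exact h2) ι w hw
  rw [← coe_Tfin]
  have e : min ((d + 2).choose 2) (Aw ![M1, M2, M3] + Aw w) =
      Aw ![M1, M2, M3] + min N (Aw w) := by omega
  rw [e]
  exact h

end Pool.Agent.W609.T
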