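import Mathlib
import Pool.Agent.W609.T.Bd1

set_option autoImplicit false

/-!
# The boundary case `d = m₁ + m₂ + m₃`: the case D
-/

namespace Pool.Agent.W609.T

open Polynomial Pool.Agent.H932R2 Pool.Agent.H932R3 Pool.Agent.H932R7
open Pool.Agent.W608 Pool.Agent.W611

/-- Full rank if there are enough conditions. -/
def FR {β : Type} [Fintype β] (u : β → ℕ) (m : ℕ) (Q : Finset (ℕ × ℕ)) (W : ℕ) : Prop :=
  ∀ (ι : Type) [Fintype ι] (w : ι → ℕ), (∀ a, w a ≤ m) →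
    Q.card + W ≤ Aw u + Aw w → RkS (PF ℚ (Sum.elim u w)) (↑Q : Set (ℕ × ℕ)) Q.card

theorem NCB.fr {β : Type} [Fintype β] {u : β → ℕ} {m : ℕ} {Q : Finset (ℕ × ℕ)} {W : ℕ}
    (h : NCB u m Q W) : FR u m Q W := fun ι _ w hw => (h ι w hw).2

variable {K : Type} [Field K] [CharZero K] {𝓘 : Set (Ideal K[X][X])}

/-- Exact ranks near the critical size. -/
theorem crit_abs' {k₀ m : ℕ} (hk₀ : 0 < k₀) (hkm : k₀ ≤ m) {β : Type} [Fintype β] (u : β → ℕ)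
    (Q : Finset (ℕ × ℕ)) {s δ c₀ W P3 P4 : ℕ} (hs : 0 < s) (hδ : 0 < δ)
    (hc0 : s * (δ * (m + 1)) ≤ c₀)
    (hQ : ∀ a b, a < δ * (m + 1) → (((a, b) : ℕ × ℕ) ∈ Q ↔ b + s * a < c₀))
    (hP3 : P3 = (m + 1) ^ 3) (hP4 : P4 = (m + 1) ^ 4)
    (hT : NCB u m (Q.filter fun p => δ * m ≤ p.1) W)
    (hT0 : FR u m (Q.filter fun p => δ * (m + 1) ≤ p.1) W)
    (g1 : (Q.filter fun p => δ * (m + 1) ≤ p.1).card + 2 * W + 2 * P3 ≤
      (Q.filter fun p => δ * m ≤ p.1).card)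
    (g2 : Aw u + W + 2 * P4 ≤ (Q.filter fun p => δ * m ≤ p.1).card)
    (g3 : (Q.filter fun p => δ * m ≤ p.1).card + 4 * P3 ≤ Q.card)
    {ι : Type} [Fintype ι] (w : ι → ℕ) (hw : ∀ a, w a ≤ m)
    (htail : (∑ a, if w a < k₀ then w a * (w a + 1) else 0) ≤ P4)
    (hN1 : 2 * Q.card < 2 * (Aw u + Aw w) + k₀ * (k₀ + 1))
    (hN2 : 2 * (Aw u + Aw w) < 2 * Q.card + k₀ * (k₀ + 1))
    (hfr : m * (m + 1) * (m + 2) + k₀ * (k₀ + 1) ≤ Nat.card {a // w a = k₀} * (k₀ * (k₀ + 1))) :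
    RkS (PF ℚ (Sum.elim u w)) (↑Q : Set (ℕ × ℕ)) (min Q.card (Aw u + Aw w)) := by
  classical
  have hm : 0 < m := by omega
  obtain ⟨q, hq⟩ : ∃ q, q = k₀ * (k₀ + 1) := ⟨_, rfl⟩
  have hqm : q ≤ m * (m + 1) := by
    rw [hq]
    exact Nat.mul_le_mul hkm (by omega)
  have hq0 : 0 < q := by
    rw [hq]
    positivity
  obtain ⟨c₁, hc₁⟩ : ∃ c₁, c₁ = (k₀ + 1).choose 2 := ⟨_, rfl⟩
  have hc₁2 : 2 * c₁ = q := by rw [hc₁, hq]; exact two_choose' k₀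
  obtain ⟨c, hc⟩ : ∃ c, c = (m + 1).choose 2 := ⟨_, rfl⟩
  have hc2 : 2 * c = m * (m + 1) := by rw [hc]; exact two_choose' m
  have hc0' : 0 < c := by
    rw [hc]
    exact Nat.choose_pos (by omega)
  rw [← hq] at hN1 hN2 hfr
  obtain ⟨W', hW'⟩ : ∃ W, W = 2 * (m + 1).choose 3 := ⟨_, rfl⟩
  have hW3 : 3 * W' + m = m * m * m := by rw [hW']; exact R4h.three_choose m
  obtain ⟨n1, n2, n3, n4, n5, n6⟩ := num_m hm hW3
  have n7 : m * (m + 1) * (m + 2) ≤ (m + 1) ^ 3 := by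
    nlinarith
  have n8 : m + 1 ≤ (m + 1) ^ 3 := Nat.le_self_pow (by omega) _
  have n9 : 2 * (m + 1) ^ 3 ≤ (m + 1) ^ 4 := by
    have : (m + 1) ^ 4 = (m + 1) * (m + 1) ^ 3 := by ring
    rw [this]
    exact Nat.mul_le_mul_right _ (by omega)
  rw [← hP3] at n1 n2 n7 n8 n9
  rw [← hP4] at n3 n4 n5 n6 n9
  obtain ⟨T, hTd⟩ : ∃ T, T = Q.filter fun p => δ * m ≤ p.1 := ⟨_, rfl⟩
  obtain ⟨T0, hT0d⟩ : ∃ T0, T0 = Q.filter fun p => δ * (m + 1) ≤ p.1 := ⟨_, rfl⟩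
  rw [← hTd] at hT g1 g2 g3
  rw [← hT0d] at hT0 g1
  -- the reserved points
  have hcard : Nat.card {a // w a = k₀} = (Finset.univ.filter fun a => w a = k₀).card := by
    rw [Nat.card_eq_fintype_card, Fintype.card_subtype]
  rw [hcard] at hfr
  obtain ⟨e, he1, he2, he3⟩ := num_div hq0 hfr
  obtain ⟨E, hE, hEc⟩ := Finset.exists_subset_card_eq he3
  have hEw : ∀ a ∈ E, w a = k₀ := fun a ha => (Finset.mem_filter.1 (hE ha)).2
  obtain ⟨L, hL⟩ : ∃ L, L = Finset.univ.filter fun a => w a < k₀ := ⟨_, rfl⟩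
  obtain ⟨B, hB⟩ : ∃ B, B = (Finset.univ.filter fun a => k₀ ≤ w a) \ E := ⟨_, rfl⟩
  have hLmem : ∀ a, a ∈ L ↔ w a < k₀ := fun a => by rw [hL]; simp
  have hBmem : ∀ a, a ∈ B ↔ k₀ ≤ w a ∧ a ∉ E := fun a => by rw [hB]; simp
  obtain ⟨f, hf⟩ : ∃ f : ι → ℕ, f = fun a => (w a + 1).choose 2 := ⟨_, rfl⟩
  have hfa : ∀ a, f a = (w a + 1).choose 2 := fun a => by rw [hf]
  have hf2 : ∀ a, 2 * f a = w a * (w a + 1) := fun a => by rw [hfa]; exact two_choose' _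
  -- sums
  have hLsum : 2 * ∑ a ∈ L, f a ≤ P4 := by
    refine le_trans (le_of_eq ?_) htail
    rw [hL, Finset.mul_sum, Finset.sum_filter]
    refine Finset.sum_congr rfl fun a _ => ?_
    split_ifs
    · exact hf2 a
    · rfl
  obtain ⟨AT, hAT⟩ : ∃ AT, AT = ∑ a ∈ L, f a := ⟨_, rfl⟩
  rw [← hAT] at hLsum
  have hLBE : Disjoint (L ∪ B) E := by
    rw [Finset.disjoint_left]
    intro a ha ha'
    rcases Finset.mem_union.1 ha with h | h
    · rw [hLmem] at h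
      have := hEw a ha'
      omega
    · exact ((hBmem a).1 h).2 ha'
  have hAll : ∑ a ∈ L ∪ B, f a + ∑ a ∈ E, f a = Aw w := by
    rw [← Finset.sum_union hLBE]
    have h4 : L ∪ B ∪ E = Finset.univ := by
      rw [Finset.eq_univ_iff_forall]
      intro a
      rw [Finset.mem_union, Finset.mem_union, hLmem, hBmem]
      by_cases h : a ∈ E
      · tauto
      · rcases Nat.lt_or_ge (w a) k₀ with h' | h'
        · tauto
        · tauto
    rw [h4]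
    unfold Aw
    exact Finset.sum_congr rfl fun a _ => hfa a
  have hEsum : 2 * ∑ a ∈ E, f a = e * q := by
    rw [Finset.sum_congr rfl (g := fun _ => c₁) (fun a ha => by rw [hfa, hEw a ha, hc₁]),
      Finset.sum_const, smul_eq_mul, hEc, ← hc₁2]
    ring
  obtain ⟨lo, hlo⟩ : ∃ lo, lo = max (T0.card + W - Aw u) AT := ⟨_, rfl⟩
  obtain ⟨S, hS1, hS2, hS3, hS4, hS5⟩ := pick f L B c lo (Fintype.card ι + s * δ) hc0'
    (fun a ha => by
      rw [hfa, hc]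
      exact Nat.choose_le_choose 2 (by
        have := hw a
        omega)) (by rw [← hAT, hlo]; exact le_max_right _ _) (by
      rcases le_total (T0.card + W - Aw u) AT with h | h
      · rw [max_eq_right h] at hlo
        omega
      · rw [max_eq_left h] at hlo
        omega)
  obtain ⟨AS, hAS⟩ : ∃ AS, AS = ∑ a ∈ S, f a := ⟨_, rfl⟩
  rw [← hAS] at hS3 hS4
  have hASle : 2 * AS + e * q ≤ 2 * Aw w := by
    have h1 : ∑ a ∈ S, f a ≤ ∑ a ∈ L ∪ B, f a := Finset.sum_le_sum_of_subset hS2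
    omega
  obtain ⟨wS, hwS⟩ : ∃ wS : {a // a ∈ S} → ℕ, wS = fun a : {a // a ∈ S} => w a := ⟨_, rfl⟩
  have hAwS : Aw wS = AS := by
    unfold Aw
    rw [hwS, hAS, Finset.sum_coe_sort S fun a => (w a + 1).choose 2]
    exact Finset.sum_congr rfl fun a _ => (hfa a).symm
  have hwSm : ∀ a, wS a ≤ m := fun a => by rw [hwS]; exact hw a.1
  obtain ⟨A, hA⟩ : ∃ A, A = Aw u + AS := ⟨_, rfl⟩
  have hAT1 : A + 2 * c + W + (m + 1) ≤ T.card + 2 * c ∧ T0.card + W ≤ A := by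
    rcases le_total (T0.card + W - Aw u) AT with h | h
    · rw [max_eq_right h] at hlo
      omega
    · rw [max_eq_left h] at hlo
      omega
  have hind : RkS (PF ℚ (Sum.elim u wS)) (↑T : Set (ℕ × ℕ)) A := by
    have h1 := (hT _ wS hwSm).1 (by rw [hAwS]; omega)
    rw [hAwS, ← hA] at h1
    exact h1
  have hfull : RkS (PF ℚ (Sum.elim u wS)) (↑T0 : Set (ℕ × ℕ)) T0.card :=
    hT0 _ wS hwSm (by rw [hAwS]; omega)
  have hAe : Aw (Sum.elim u wS) = A := by rw [Aw_sum, hAwS, hA]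
  -- the place
  obtain ⟨A₂, hA₂⟩ : ∃ A₂, A₂ = Aw (fun a : {a // a ∉ S} => w a) := ⟨_, rfl⟩
  have hsplit := Aw_split w S
  rw [← hwS, hAwS, ← hA₂] at hsplit
  obtain ⟨N₀, hN₀⟩ : ∃ N₀, Q.card = A + N₀ := ⟨Q.card - A, by omega⟩
  have hmin : min Q.card (Aw u + Aw w) = A + min N₀ A₂ := by
    omega
  rw [hmin]
  refine sum_split (S := S) ?_
  rw [← hwS, ← hAe]
  refine comb_col (Sum.elim u wS) _ Q (δ * m) (δ * (m + 1)) (Nat.mul_le_mul_left _ (by omega))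
    (by rw [hAe, ← hTd]; exact hind) (by rw [← hT0d]; exact hfull) _ ?_
  intro R hR hR0 hRc
  rw [hAe] at hRc
  rw [← hTd] at hR
  rw [← hT0d] at hR0
  obtain ⟨s', u', t, j, k1, k2, k3, k4, k5, k6⟩ := start_holeT
    (T_STAB ℚ _ (fun a : {a // a ∉ S} => w a)) (R := R) hs hδ hm hc0 hQ
    (fun p hp => by
      have := hR hp
      rw [hTd] at this
      exact (Finset.mem_filter.1 this).1)
    (fun p hp => by
      have := hR hp
      rw [hTd] at this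
      exact (Finset.mem_filter.1 this).2) (by rw [← hT0d]; exact hR0)
    (by rw [← hTd, hRc]; omega) (by rw [hRc]; omega)
  refine k6 _ ?_
  have hsz : sz s' u' t j = 2 * N₀ := by omega
  rw [hA₂]
  refine W608.t_x ℚ k₀ m hk₀ hkm {a // a ∉ S} (fun a => w a) (fun a => ?_)
    _ N₀ s' u' t j rfl k1 k2 hsz ?_ ?_ ?_ ?_ ?_
  · refine ⟨?_, hw a.1⟩
    by_contra h6
    exact a.2 (hS1 ((hLmem _).2 (not_le.1 h6)))
  · rw [← hsz]
    unfold sz
    have h8 : s' * (m * (m + 1)) ≤ s' * (u' * (u' + 1)) :=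
      Nat.mul_le_mul_left _ (Nat.mul_le_mul k3 (by omega))
    have h9 : s' * (u' * (u' + 1)) = s' * u' * (u' + 1) := by ring
    omega
  · have h6 : Fintype.card {a // a ∉ S} = Fintype.card ι - S.card := by
      rw [Fintype.card_subtype_compl, Fintype.card_coe]
    have h7 : S.card ≤ Fintype.card ι := Finset.card_le_univ S
    rw [h6]
    omega
  · rw [← hA₂, ← hq]
    omega
  · rw [← hA₂, ← hq]
    omega
  · rw [← hq]
    refine le_trans he1 (Nat.mul_le_mul_right q ?_)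
    rw [← hEc, ← Fintype.card_coe, ← Nat.card_eq_fintype_card]
    refine Nat.card_le_card_of_injective (fun a => ⟨⟨a.1, ?_⟩, hEw a.1 a.2⟩) ?_
    · intro h8
      rcases Finset.mem_union.1 (hS2 h8) with h | h
      · rw [hLmem] at h
        have := hEw a.1 a.2
        omega
      · exact ((hBmem _).1 h).2 a.2
    · intro a b hab
      have h8 := congrArg (fun t => (t.1.1 : ι)) hab
      exact Subtype.ext h8

theorem crit_of' {m : ℕ} {β : Type} [Fintype β] (u : β → ℕ)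
    (Q : Finset (ℕ × ℕ)) {s δ c₀ W P3 P4 : ℕ} (hs : 0 < s) (hδ : 0 < δ)
    (hc0 : s * (δ * (m + 1)) ≤ c₀)
    (hQ : ∀ a b, a < δ * (m + 1) → (((a, b) : ℕ × ℕ) ∈ Q ↔ b + s * a < c₀))
    (hP3 : P3 = (m + 1) ^ 3) (hP4 : P4 = (m + 1) ^ 4)
    (hT : NCB u m (Q.filter fun p => δ * m ≤ p.1) W)
    (hT0 : FR u m (Q.filter fun p => δ * (m + 1) ≤ p.1) W)
    (hW : P3 ≤ W) (g1 : 2 * W + 2 * P3 ≤ δ * (c₀ - s * (δ * (m + 1))))
    (g2 : Aw u + W + 2 * P4 ≤ (Q.filter fun p => δ * m ≤ p.1).card) : CritP u m Q := by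
  intro k₀ h0 h1 ι _ w hw htail hN1 hN2 hfr
  obtain ⟨T, hT1, -, hT2, hT3, hT4⟩ := strip_id Q hδ hQ hc0
  refine crit_abs' h0 h1 u Q hs hδ hc0 hQ hP3 hP4 hT hT0 (by omega) g2 ?_ w hw
    (by rw [hP4]; exact htail) hN1 hN2 hfr
  have h2 : 2 * 1 * T ≤ 2 * m * T := Nat.mul_le_mul_right _ (by omega)
  have h3 : s * (δ * δ) * 1 * (1 + 1) ≤ s * (δ * δ) * m * (m + 1) :=
    Nat.mul_le_mul (Nat.mul_le_mul_left _ (by omega)) (by omega)
  have h4 : 0 ≤ s * (δ * δ) * 1 * (1 + 1) := Nat.zero_le _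
  omega


end Pool.Agent.W609.T
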