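import Mathlib
import Pool.Agent.W609.T.Bd2

set_option autoImplicit false

/-!
# The boundary case `d = m₁ + m₂ + m₃`: full rank on a thin slab
-/

namespace Pool.Agent.W609.T

open Polynomial Pool.Agent.H932R2 Pool.Agent.H932R3 Pool.Agent.H932R7
open Pool.Agent.W608 Pool.Agent.W611

/-- Full rank on a slab of width `m` for multiplicities up to `m`. -/
theorem thin_full {m M : ℕ} (hm : 0 < m) (hM : m + 1 ≤ M) (hM2 : (m + 1) * (m + 2) ≤ 2 * M)
    {ι : Type} [Fintype ι] {w : ι → ℕ} (hw : ∀ a, w a ≤ m)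
    (h : (trapF M (m - 1)).card + (m + 1) + W0 m ≤ Aw w) :
    RkS (PF ℚ w) (↑(trapF M (m - 1)) : Set (ℕ × ℕ)) (trapF M (m - 1)).card := by
  classical
  obtain ⟨k, rfl⟩ : ∃ k, m = k + 1 := ⟨m - 1, by omega⟩
  rw [Nat.add_sub_cancel] at h ⊢
  have hst := T_STAB ℚ ι w
  obtain ⟨Q, hQ⟩ : ∃ Q, Q = Tfin (M + k) := ⟨_, rfl⟩
  obtain ⟨R, hR⟩ : ∃ R, R = Q.filter fun p => k + 1 ≤ p.1 ∧ (p.1 = k + 1 → k + 2 ≤ p.2) :=
    ⟨_, rfl⟩
  have hmQ : ∀ a b, ((a, b) : ℕ × ℕ) ∈ Q ↔ a + b ≤ M + k := fun a b => by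
    rw [hQ, mem_Tfin]
  have hmR : ∀ a b, ((a, b) : ℕ × ℕ) ∈ R ↔ a + b ≤ M + k ∧ k + 1 ≤ a ∧
      (a = k + 1 → k + 2 ≤ b) := fun a b => by
    rw [hR, Finset.mem_filter, hmQ]
  have hRQ : R ⊆ Q := by
    rw [hR]
    exact Finset.filter_subset _ _
  -- the complement
  obtain ⟨B, hB⟩ : ∃ B, B = linF 1 k (M + 1) := ⟨_, rfl⟩
  have hcB := card_linF 1 k (M + 1)
  rw [← hB] at hcB
  have hct := card_trapF M k
  have hBt : B.card = (trapF M k).card := by
    have : (k + 1) * (1 * k + 2 * (M + 1)) = (k + 1) * (k + 2 * M + 2) := by ring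
    omega
  have hQR : (Q \ R) = B ∪ (Finset.range (k + 2)).image fun b => (k + 1, b) := by
    ext ⟨a, b⟩
    rw [Finset.mem_sdiff, hmQ, hmR, Finset.mem_union, hB, mem_linF, Finset.mem_image]
    simp only [Finset.mem_range, Prod.mk.injEq]
    constructor
    · rintro ⟨h1, h2⟩
      rcases Nat.lt_or_ge a (k + 1) with h3 | h3
      · left
        omega
      · right
        have h4 : a = k + 1 ∧ b < k + 2 := by
          by_contra hcon
          apply h2
          refine ⟨h1, h3, fun h5 => ?_⟩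
          by_contra h6
          exact hcon ⟨h5, by omega⟩
        exact ⟨b, h4.2, h4.1.symm, rfl⟩
    · rintro (⟨h1, h2⟩ | ⟨b', h1, h2, h3⟩)
      · omega
      · subst h2
        subst h3
        refine ⟨by omega, fun h4 => ?_⟩
        have := h4.2.2 rfl
        omega
  have hdis : Disjoint B ((Finset.range (k + 2)).image fun b => (k + 1, b)) := by
    rw [Finset.disjoint_left]
    rintro ⟨a, b⟩ h1 h2
    rw [hB, mem_linF] at h1
    simp only [Finset.mem_image, Finset.mem_range, Prod.mk.injEq] at h2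
    obtain ⟨_, _, h3, _⟩ := h2
    omega
  have hcQR : (Q \ R).card = B.card + (k + 2) := by
    rw [hQR, Finset.card_union_of_disjoint hdis,
      Finset.card_image_of_injective _ (fun x y hxy => (Prod.mk.inj hxy).2), Finset.card_range]
  have hcR : R.card + (Q \ R).card = Q.card := by
    rw [Finset.card_sdiff_of_subset hRQ]
    have := Finset.card_le_card hRQ
    omega
  -- the strip
  have hX : R.card + (k + 1 + 1) ≤ (Q.filter fun p => 1 * (k + 1) ≤ p.1).card := by
    have h1 : (Q.filter fun p => 1 * (k + 1) ≤ p.1) =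
        R ∪ (Finset.range (k + 2)).image fun b => (k + 1, b) := by
      ext ⟨a, b⟩
      rw [Finset.mem_filter, hmQ, Finset.mem_union, hmR, Finset.mem_image]
      simp only [Finset.mem_range, Prod.mk.injEq, one_mul]
      constructor
      · rintro ⟨h1, h2⟩
        by_cases h3 : a = k + 1 ∧ b < k + 2
        · right
          exact ⟨b, h3.2, h3.1.symm, rfl⟩
        · left
          refine ⟨h1, h2, fun h5 => ?_⟩
          by_contra h6
          exact h3 ⟨h5, by omega⟩
      · rintro (⟨h1, h2, h3⟩ | ⟨b', h1, h2, h3⟩)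
        · exact ⟨h1, h2⟩
        · subst h2
          subst h3
          omega
    have h2 : Disjoint R ((Finset.range (k + 2)).image fun b => (k + 1, b)) := by
      rw [Finset.disjoint_left]
      rintro ⟨a, b⟩ h1 h2
      rw [hmR] at h1
      simp only [Finset.mem_image, Finset.mem_range, Prod.mk.injEq] at h2
      obtain ⟨_, h4, h3, h5⟩ := h2
      have := h1.2.2 h3.symm
      omega
    rw [h1, Finset.card_union_of_disjoint h2,
      Finset.card_image_of_injective _ (fun x y hxy => (Prod.mk.inj hxy).2), Finset.card_range]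
  have hFR : (k + 1) * (k + 1 + 1) * (k + 1 + 2) + 2 * R.card ≤ 2 * Q.card := by
    have h1 : (k + 1) * ((k + 1 + 1) * (k + 1 + 2)) ≤ (k + 1) * (2 * M) :=
      Nat.mul_le_mul_left _ hM2
    have h2 : (k + 1) * (k + 1 + 1) * (k + 1 + 2) = (k + 1) * ((k + 1 + 1) * (k + 1 + 2)) := by
      ring
    have h3 : (k + 1) * (k + 2 * M + 2) = (k + 1) * (2 * M) + (k + 1) * (k + 2) := by ring
    omega
  obtain ⟨s', u', t, j, g1, g2, g3, g4, g5, g6⟩ := start_holeT hst (s := 1) (δ := 1)
    (u := k + 1) (c₀ := M + k + 1) (Q := Q) (R := R) one_pos one_pos (by omega) (by omega)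
    (fun a b hab => by
      rw [hmQ]
      omega) hRQ
    (fun p hp => by
      obtain ⟨a, b⟩ := p
      rw [hmR] at hp
      simp only
      omega)
    (fun p hp => by
      obtain ⟨a, b⟩ := p
      rw [Finset.mem_filter, hmQ] at hp
      rw [hmR]
      simp only at hp
      omega) hX hFR
  obtain ⟨N, hN⟩ : ∃ N, N = (Q \ R).card := ⟨_, rfl⟩
  have hsz : sz s' u' t j = 2 * N := by omega
  have h8 : s' * ((k + 1) * (k + 1 + 1)) ≤ s' * (u' * (u' + 1)) :=
    Nat.mul_le_mul_left _ (Nat.mul_le_mul g3 (by omega))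
  have h9 : s' * ((k + 1) * (k + 1 + 1)) ≤ 2 * N := by
    rw [← hsz]
    unfold sz
    have h9 : s' * (u' * (u' + 1)) = s' * u' * (u' + 1) := by ring
    omega
  have h10 := (nc_Lfin ℚ (by omega) hw g1 g2 hsz h9).2 (by
    have e0 : 2 * (k + 1 + 1).choose 3 + (k + 1 + 1).choose 2 = W0 (k + 1) := rfl
    rw [e0]
    omega)
  have h11 := g6 _ h10
  have h12 : RkS (PF ℚ w) (↑(Q \ R) : Set (ℕ × ℕ)) (Q \ R).card := by
    rw [← hN, Finset.coe_sdiff]
    exact h11
  have h13 := RkS.subset h12 (show B ⊆ Q \ R by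
    rw [hQR]
    exact Finset.subset_union_left)
  rw [hBt] at h13
  rw [coe_trapF]
  refine RkS.compressX hst (M + k) (hKz (M + k)) (step_0 le_rfl) (RkS.mono ?_ h13)
  rintro ⟨i, l⟩ hp
  rw [Finset.mem_coe, hB, mem_linF] at hp
  rw [mem_tallS]
  omega

end Pool.Agent.W609.T
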