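import Mathlib
import Pool.Agent.W609.T.Bd4
import Pool.Agent.W609.Fin2

set_option autoImplicit false

/-!
# Three points of arbitrary multiplicity, `d ≥ m₁ + m₂ + m₃`: general points
-/

namespace Pool.Agent.W609.T

open Polynomial Pool.Agent.H932R2 Pool.Agent.H932R3 Pool.Agent.H932R7

/-- The good degrees. -/
def Ge4 (M1 M2 M3 m d : ℕ) : Prop := M1 + M2 + M3 ≤ d ∧
  131072 * (m + 1) ^ 4 + (M1 * (M1 + 1) + M2 * (M2 + 1) + M3 * (M3 + 1)) ≤ (d + 1) * (d + 2)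

theorem Ge4_mono {M1 M2 M3 m a b : ℕ} (h : a ≤ b) (ha : Ge4 M1 M2 M3 m a) : Ge4 M1 M2 M3 m b :=
  ⟨ha.1.trans h, ha.2.trans (Nat.mul_le_mul (by omega) (by omega))⟩

theorem Ge4_ex (M1 M2 M3 m : ℕ) : ∃ d, Ge4 M1 M2 M3 m d := by
  obtain ⟨X, hX⟩ : ∃ X, X = 131072 * (m + 1) ^ 4 +
    (M1 * (M1 + 1) + M2 * (M2 + 1) + M3 * (M3 + 1)) := ⟨_, rfl⟩
  refine ⟨X + M1 + M2 + M3 + 1, by omega, ?_⟩
  rw [← hX]
  exact le_trans (by omega : X ≤ X + M1 + M2 + M3 + 1 + 1)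
    (Nat.le_mul_of_pos_right _ (by omega))

theorem key4 {M1 M2 M3 m A S d : ℕ} (h32 : M3 ≤ M2) (h21 : M2 ≤ M1)
    (hS : 2 * S = M1 * (M1 + 1) + M2 * (M2 + 1) + M3 * (M3 + 1))
    (hA : 131072 * (m + 1) ^ 4 ≤ A) (hd : M1 + M2 + M3 ≤ d) (hG : ¬ Ge4 M1 M2 M3 m d)
    (hM3 : 1 ≤ M3) :
    ∃ e, d ≤ e ∧ Ge4 M1 M2 M3 m e ∧ (e + 2).choose 2 ≤ S + A := by
  classical
  obtain ⟨P, hP⟩ : ∃ P, P = (m + 1) ^ 4 := ⟨_, rfl⟩
  have h : (d + 2).choose 2 ≤ S + A := by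
    have h1 := H932R7.two_choose d
    have h4 : (d + 1) * (d + 2) < 131072 * (m + 1) ^ 4 +
        (M1 * (M1 + 1) + M2 * (M2 + 1) + M3 * (M3 + 1)) := by
      by_contra h
      exact hG ⟨hd, not_lt.1 h⟩
    omega
  obtain ⟨A', hA'⟩ : ∃ A', A' = S + A := ⟨_, rfl⟩
  rw [← hA'] at h ⊢
  have hle : ∀ e : ℕ, (e + 2).choose 2 ≤ A' → e ≤ A' := by
    intro e he
    have h1 := H932R7.two_choose e
    nlinarith
  let Q : ℕ → Prop := fun e => (e + 2).choose 2 ≤ A'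
  obtain ⟨e, he⟩ : ∃ e, e = Nat.findGreatest Q A' := ⟨_, rfl⟩
  have hPe : Q e := by
    rw [he]
    exact Nat.findGreatest_spec (P := Q) (hle d h) h
  have hde : d ≤ e := by
    rw [he]
    exact Nat.le_findGreatest (hle d h) h
  have hnot : ¬ Q (e + 1) := by
    intro h1
    have h2 : e + 1 ≤ Nat.findGreatest Q A' := Nat.le_findGreatest (hle _ h1) h1
    omega
  refine ⟨e, hde, ⟨by omega, ?_⟩, hPe⟩
  have hnot' : A' < (e + 1 + 2).choose 2 := not_le.1 hnot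
  have h1 := H932R7.two_choose (e + 1)
  by_contra hcon
  push Not at hcon
  have h4 : (e + 1 + 1) * (e + 1 + 2) = (e + 1) * (e + 2) + 2 * (e + 2) := by ring
  -- twice the area is at least `2 (e + 2)`
  have h5 : 2 * (e + 2) + (M1 * (M1 + 1) + M2 * (M2 + 1) + M3 * (M3 + 1)) ≤
      (e + 1) * (e + 2) := by
    obtain ⟨a, rfl⟩ : ∃ a, M2 = M3 + a := ⟨M2 - M3, by omega⟩
    obtain ⟨b, rfl⟩ : ∃ b, M1 = M3 + a + b := ⟨M1 - (M3 + a), by omega⟩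
    obtain ⟨y, rfl⟩ : ∃ y, e = (M3 + a + b) + (M3 + a) + M3 + y :=
      ⟨e - ((M3 + a + b) + (M3 + a) + M3), by omega⟩
    obtain ⟨z, rfl⟩ : ∃ z, M3 = z + 1 := ⟨M3 - 1, by omega⟩
    nlinarith [Nat.zero_le (z * z), Nat.zero_le (z * a), Nat.zero_le (z * b),
      Nat.zero_le (a * a), Nat.zero_le (a * b), Nat.zero_le (b * b), Nat.zero_le (z * y),
      Nat.zero_le (a * y), Nat.zero_le (b * y), Nat.zero_le (y * y)]
  omega

/-- Three points of arbitrary multiplicity, the others of smaller multiplicity. -/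
theorem big3' (L : Type) [Field L] [CharZero L] {r : ℕ} {v : Fin (r + 4) → ℕ} (hv : Antitone v)
    (h0 : 0 < v 3) :
    ∃ F : MvPolynomial (Fin (r + 4) × Fin 2) ℚ, F ≠ 0 ∧ ∀ P : Fin (r + 4) → Fin 2 → L,
      MvPolynomial.aeval (fun ij : Fin (r + 4) × Fin 2 => P ij.1 ij.2) F ≠ 0 →
        ∀ d : ℕ, v 0 + v 1 + v 2 ≤ d →
          (131072 * (v 3 + 1) ^ 4 + (v 0 * (v 0 + 1) + v 1 * (v 1 + 1) + v 2 * (v 2 + 1)) ≤
              (d + 1) * (d + 2) ∨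
            131072 * (v 3 + 1) ^ 4 ≤
              ∑ i : Fin (r + 4), if 3 ≤ (i : ℕ) then (v i + 1).choose 2 else 0) →
          ExpDim L v P d := by
  classical
  have n0 : ((0 : Fin (r + 4)) : ℕ) = 0 := rfl
  have n1 : ((1 : Fin (r + 4)) : ℕ) = 1 := Nat.mod_eq_of_lt (show 1 < r + 4 by omega)
  have n2 : ((2 : Fin (r + 4)) : ℕ) = 2 := Nat.mod_eq_of_lt (show 2 < r + 4 by omega)
  have n3 : ((3 : Fin (r + 4)) : ℕ) = 3 := Nat.mod_eq_of_lt (show 3 < r + 4 by omega)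
  have k1 : (Fin.succ (0 : Fin (r + 3))) = (1 : Fin (r + 4)) := Fin.ext (by rw [n1]; rfl)
  have k2 : (Fin.succ (Fin.succ (0 : Fin (r + 2)))) = (2 : Fin (r + 4)) := Fin.ext (by
    rw [n2]; rfl)
  obtain ⟨w, hw⟩ : ∃ w : Fin (r + 1) → ℕ, w = fun i : Fin (r + 1) => v ⟨i.1 + 3, by omega⟩ :=
    ⟨_, rfl⟩
  have h32 : v 2 ≤ v 1 := hv (by rw [Fin.le_def, n1, n2]; omega)
  have h21 : v 1 ≤ v 0 := hv (by rw [Fin.le_def, n1, n0]; omega)
  have h3 : v 3 ≤ v 2 := hv (by rw [Fin.le_def, n3, n2]; omega)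
  have hwm : ∀ i, w i ≤ v 3 := by
    intro i
    rw [hw]
    refine hv ?_
    rw [Fin.le_def, n3]
    simp only
    omega
  have hAv : Aw v = Aw ![v 0, v 1, v 2] + Aw w := by
    rw [Aw_three]
    unfold Aw
    rw [Fin.sum_univ_succ, Fin.sum_univ_succ, Fin.sum_univ_succ, k1, k2, hw, ← Nat.add_assoc,
      ← Nat.add_assoc]
    rfl
  have hAw : (∑ i : Fin (r + 4), if 3 ≤ (i : ℕ) then (v i + 1).choose 2 else 0) = Aw w := by
    unfold Aw
    rw [Fin.sum_univ_succ, Fin.sum_univ_succ, Fin.sum_univ_succ, k1, k2, n0, n1, n2,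
      if_neg (by omega), if_neg (by omega), if_neg (by omega), Nat.zero_add, Nat.zero_add,
      Nat.zero_add, hw]
    refine Finset.sum_congr rfl fun i _ => ?_
    rw [if_pos (by simp only [Fin.val_succ]; omega)]
    rfl
  rw [hAw]
  have hS : 2 * Aw ![v 0, v 1, v 2] = v 0 * (v 0 + 1) + v 1 * (v 1 + 1) + v 2 * (v 2 + 1) := by
    rw [Aw_three]
    have t1 := R4h.two_choose (v 0)
    have t2 := R4h.two_choose (v 1)
    have t3 := R4h.two_choose (v 2)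
    omega
  have hR : ∀ d, Ge4 (v 0) (v 1) (v 2) (v 3) d →
      RkS (PF ℚ v) (Tset d) (min ((d + 2).choose 2) (Aw v)) := by
    intro d hG
    obtain ⟨h1, h2⟩ := hG
    have h6 := rank3' (y := d - v 0 - v 1) h0 h3 h32 h21 (by omega) (by omega) h2 _ w hwm
    rw [← hAv] at h6
    refine rkS_reindex (f := Sum.elim ![0, 1, 2] (fun i : Fin (r + 1) => ⟨i.1 + 3, by omega⟩))
      (g := fun x : Fin (r + 4) => if h : x.1 < 3 then Sum.inl ⟨x.1, h⟩ else Sum.inr ⟨x.1 - 3, by omega⟩)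
      ?_ ?_ h6
    · rintro (b | a)
      · fin_cases b <;> rfl
      · simp
    · rintro (b | a)
      · fin_cases b <;> rfl
      · rw [hw]
        rfl
  obtain ⟨F, hF, hF'⟩ := fin_abs L v 0 0 (Ge4 (v 0) (v 1) (v 2) (v 3))
    (fun a b hab => Ge4_mono hab) (Ge4_ex _ _ _ _) (fun d hG _ => hR d hG) (fun d hG hd => by
      have h9 := hR d hG
      rwa [min_eq_left (by omega)] at h9)
  refine ⟨F, hF, fun P hP d hd hbig => hF' P hP d ?_⟩
  by_cases hG : Ge4 (v 0) (v 1) (v 2) (v 3) d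
  · exact Or.inl ⟨hG, by omega⟩
  · right
    have hA : 131072 * (v 3 + 1) ^ 4 ≤ Aw w := by
      rcases hbig with h | h
      · exact absurd ⟨hd, h⟩ hG
      · exact h
    obtain ⟨e, g1, g2, g3⟩ := key4 h32 h21 hS hA hd hG (by omega)
    exact ⟨e, g1, g2, by rw [hAv]; exact g3⟩

end Pool.Agent.W609.T
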